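import Pool.Agent.Lib.MP_b525e0_co.SC.Defs

namespace Pool.Agent.Lib.MP_b525e0_co.SC

open Complex ComplexConjugate

variable {n : ℕ} {G : SimpleGraph (Fin n)}

theorem Spin_mul_conj {a b : Sp} (ha : ip a a = 1) (hb : ip b b = 1) (h : ip a b = 0) :
    om a b * conj (om a b) = 1 := by
  have h1 : om a b * conj (om a b) + ip a b * conj (ip a b) = ip a a * ip b b := by
    simp only [om, ip, map_add, map_sub, map_mul, Complex.conj_conj]
    ring
  rw [ha, hb, h] at h1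
  simpa using h1

theorem Spin_fst {a b : Sp} (ha : ip a a = 1) (h : ip a b = 0) :
    b.1 = -om a b * conj a.2 := by
  simp only [om, ip] at ha h ⊢
  linear_combination a.1 * h - b.1 * ha

theorem Spin_snd {a b : Sp} (ha : ip a a = 1) (h : ip a b = 0) :
    b.2 = om a b * conj a.1 := by
  simp only [om, ip] at ha h ⊢
  linear_combination a.2 * h - b.2 * ha

theorem norm_om_of_orth {a b : Sp} (ha : ip a a = 1) (hb : ip b b = 1) (h : ip a b = 0) :
    ‖om a b‖ = 1 := by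
  have h1 := congrArg norm (Spin_mul_conj ha hb h)
  rw [norm_mul, Complex.norm_conj, norm_one] at h1
  nlinarith [norm_nonneg (om a b)]

theorem edge_identity {a b : Sp} (ha : ip a a = 1) (hb : ip b b = 1) (h : ip a b = 0)
    (x y : Sp) :
    MM a (I / om a b) x * MM b (I / om b a) y + MM a (-(I / om a b)) x * MM b (-(I / om b a)) y =
      2 * (om x y / om a b) := by
  have hc := Spin_mul_conj ha hb h
  have h1 := Spin_fst ha h
  have h2 := Spin_snd ha h
  have hba : om b a = -om a b := by simp only [om]; ring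
  have hinv : (om a b)⁻¹ = conj (om a b) := (eq_inv_of_mul_eq_one_right hc).symm
  have e1 : ip b y = conj (om a b) * om a y := by
    have k1 : conj b.1 = -conj (om a b) * a.2 := by
      conv_lhs => rw [h1]
      simp
    have k2 : conj b.2 = conj (om a b) * a.1 := by
      conv_lhs => rw [h2]
      simp
    rw [ip, k1, k2, om, om]
    ring
  have e2 : om b y = -om a b * ip a y := by
    rw [show om b y = b.1 * y.2 - b.2 * y.1 from rfl, ip]
    linear_combination y.2 * h1 - y.1 * h2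
  have e3 : om x y = ip a x * om a y - om a x * ip a y := by
    simp only [om, ip] at ha ⊢
    linear_combination (-(x.1 * y.2 - x.2 * y.1)) * ha
  simp only [MM, hba, div_eq_mul_inv, inv_neg, hinv, e1, e2, e3]
  linear_combination (2 * om a x * ip a y * conj (om a b) ^ 2 * om a b) * I_mul_I -
    (2 * om a x * ip a y * conj (om a b)) * hc

theorem ip_JJ (a : Sp) : ip a (JJ a) = 0 ∧ ip (JJ a) a = 0 ∧ ip (JJ a) (JJ a) = ip a a := by
  refine ⟨?_, ?_, ?_⟩ <;> simp only [ip, JJ, map_neg, Complex.conj_conj] <;> ring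

theorem Spin_ip_self (a : Sp) : ip a a = ((normSq a.1 + normSq a.2 : ℝ) : ℂ) := by
  rw [ip, ← Complex.normSq_eq_conj_mul_self, ← Complex.normSq_eq_conj_mul_self]
  push_cast
  rfl

theorem Spin_norm_sq (v : EuclideanSpace ℂ (Fin 2)) : ‖v‖ ^ 2 = normSq (v 0) + normSq (v 1) := by
  rw [EuclideanSpace.norm_sq_eq, Fin.sum_univ_two, Complex.sq_norm, Complex.sq_norm]

theorem Spin_rows (u : EuclideanSpace ℝ (Fin 3)) (v : Fin 2 → ℂ) :
    (pauliDot u).mulVec v = v ↔
      (u 2 : ℂ) * v 0 + ((u 0 : ℂ) - I * u 1) * v 1 = v 0 ∧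
        ((u 0 : ℂ) + I * u 1) * v 0 - (u 2 : ℂ) * v 1 = v 1 := by
  have key : (pauliDot u).mulVec v =
      ![(u 2 : ℂ) * v 0 + ((u 0 : ℂ) - I * u 1) * v 1,
        ((u 0 : ℂ) + I * u 1) * v 0 - (u 2 : ℂ) * v 1] := by
    ext i
    fin_cases i
    · simp [pauliDot, Matrix.mulVec, dotProduct, Fin.sum_univ_two]
      left
      ring
    · simp [pauliDot, Matrix.mulVec, dotProduct, Fin.sum_univ_two]
      ring
  rw [key]
  constructor
  · intro h
    exact ⟨congrFun h 0, congrFun h 1⟩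
  · intro h
    ext i
    fin_cases i
    · exact h.1
    · exact h.2

theorem spin_unit {x : Fin n → EuclideanSpace ℝ (Fin 3)} {ψ : G.Dart → EuclideanSpace ℂ (Fin 2)}
    (h : IsSpinorChoice G x ψ) (d : G.Dart) : ip (toS (ψ d)) (toS (ψ d)) = 1 := by
  have h1 := Spin_norm_sq (ψ d)
  rw [(h d).1] at h1
  rw [Spin_ip_self]
  simp only [toS]
  rw [← h1]
  simp

theorem Spin_dir_symm (p q : EuclideanSpace ℝ (Fin 3)) : dir q p = -dir p q := by
  rw [dir, dir, norm_sub_rev p q, ← smul_neg, neg_sub]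

theorem spin_orth {x : Fin n → EuclideanSpace ℝ (Fin 3)} {ψ : G.Dart → EuclideanSpace ℂ (Fin 2)}
    (h : IsSpinorChoice G x ψ) (d : G.Dart) : ip (toS (ψ d)) (toS (ψ d.symm)) = 0 := by
  obtain ⟨a1, a2⟩ := (Spin_rows _ _).1 (h d).2
  have hb := (h d.symm).2
  rw [show dir (x d.symm.fst) (x d.symm.snd) = -dir (x d.fst) (x d.snd) from
    Spin_dir_symm _ _] at hb
  obtain ⟨b1, b2⟩ := (Spin_rows _ _).1 hb
  have c1 := congrArg conj a1
  have c2 := congrArg conj a2
  simp only [map_add, map_sub, map_mul, Complex.conj_ofReal, Complex.conj_I] at c1 c2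
  simp only [PiLp.neg_apply, Complex.ofReal_neg] at b1 b2
  simp only [ip, toS]
  linear_combination (-1 / 2 : ℂ) * (ψ d.symm).ofLp 0 * c1 - (1 / 2 : ℂ) * (ψ d.symm).ofLp 1 * c2
    - (1 / 2 : ℂ) * conj ((ψ d).ofLp 0) * b1 - (1 / 2 : ℂ) * conj ((ψ d).ofLp 1) * b2

theorem bloch_orth {a b : Sp} (ha : ip a a = 1) (hb : ip b b = 1) (h : ip a b = 0) :
    bloch b = -bloch a := by
  have hc := Spin_mul_conj ha hb h
  have h1 := Spin_fst ha h
  have h2 := Spin_snd ha h
  have hn : normSq (om a b) = 1 := by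
    rw [Complex.normSq_eq_norm_sq, norm_om_of_orth ha hb h]; norm_num
  have k1 : conj b.1 = -conj (om a b) * a.2 := by
    conv_lhs => rw [h1]
    simp
  have e1 : conj b.1 * b.2 = -(conj a.1 * a.2) := by
    rw [k1]
    linear_combination (-conj (om a b) * a.2) * h2 - (conj a.1 * a.2) * hc
  have e2 : normSq b.1 = normSq a.2 := by
    conv_lhs => rw [h1]
    rw [map_mul, normSq_neg, hn, normSq_conj, one_mul]
  have e3 : normSq b.2 = normSq a.1 := by
    conv_lhs => rw [h2]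
    rw [map_mul, hn, normSq_conj, one_mul]
  rw [bloch, bloch, e1, e2, e3]
  ext i
  fin_cases i <;> simp <;> ring

theorem Spin_norm3 (u : EuclideanSpace ℝ (Fin 3)) : ‖u‖ ^ 2 = u 0 ^ 2 + u 1 ^ 2 + u 2 ^ 2 := by
  rw [EuclideanSpace.real_norm_sq_eq, Fin.sum_univ_three]

theorem Spin_unit_real {a : Sp} (ha : ip a a = 1) :
    a.1.re ^ 2 + a.1.im ^ 2 + a.2.re ^ 2 + a.2.im ^ 2 = 1 := by
  have := congrArg Complex.re ha
  simp only [ip, add_re, mul_re, conj_re, conj_im, one_re] at this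
  linear_combination this

theorem Spin_bloch_0 (a : Sp) : bloch a 0 = 2 * (a.1.re * a.2.re + a.1.im * a.2.im) := by
  simp [bloch]

theorem Spin_bloch_1 (a : Sp) : bloch a 1 = 2 * (a.1.re * a.2.im - a.1.im * a.2.re) := by
  simp [bloch, sub_eq_add_neg]

theorem Spin_bloch_2 (a : Sp) :
    bloch a 2 = a.1.re ^ 2 + a.1.im ^ 2 - (a.2.re ^ 2 + a.2.im ^ 2) := by
  simp [bloch, normSq_apply, sq]

theorem Spin_norm_bloch {a : Sp} (ha : ip a a = 1) : ‖bloch a‖ = 1 := by
  have h1 := Spin_unit_real ha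
  have h2 : ‖bloch a‖ ^ 2 = 1 := by
    rw [Spin_norm3, Spin_bloch_0, Spin_bloch_1, Spin_bloch_2]
    linear_combination (a.1.re ^ 2 + a.1.im ^ 2 + a.2.re ^ 2 + a.2.im ^ 2 + 1) * h1
  nlinarith [norm_nonneg (bloch a)]

theorem spin_bloch {x : Fin n → EuclideanSpace ℝ (Fin 3)} {ψ : G.Dart → EuclideanSpace ℂ (Fin 2)}
    (hx : ∀ i j, G.Adj i j → x i ≠ x j) (h : IsSpinorChoice G x ψ) (d : G.Dart) :
    dir (x d.fst) (x d.snd) = bloch (toS (ψ d)) := by
  have hu : ‖dir (x d.fst) (x d.snd)‖ = 1 := by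
    have h0 : ‖x d.snd - x d.fst‖ ≠ 0 :=
      norm_ne_zero_iff.2 (sub_ne_zero.2 (hx _ _ d.adj).symm)
    rw [dir, norm_smul, norm_inv, norm_norm, inv_mul_cancel₀ h0]
  have hb := Spin_norm_bloch (spin_unit h d)
  have h1 := Spin_unit_real (spin_unit h d)
  obtain ⟨a1, a2⟩ := (Spin_rows _ _).1 (h d).2
  rw [← inner_eq_one_iff_of_norm_eq_one (𝕜 := ℝ) hu hb]
  generalize dir (x d.fst) (x d.snd) = u at a1 a2 ⊢
  have r1 := congrArg Complex.re a1
  have i1 := congrArg Complex.im a1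
  have r2 := congrArg Complex.re a2
  have i2 := congrArg Complex.im a2
  simp only [add_re, sub_re, mul_re, add_im, sub_im, mul_im, ofReal_re, ofReal_im, I_re, I_im]
    at r1 i1 r2 i2
  rw [PiLp.inner_apply, Fin.sum_univ_three, Spin_bloch_0, Spin_bloch_1, Spin_bloch_2]
  simp only [toS, RCLike.inner_apply, conj_trivial] at h1 ⊢
  linear_combination ((ψ d).ofLp 0).re * r1 + ((ψ d).ofLp 0).im * i1 + ((ψ d).ofLp 1).re * r2 +
    ((ψ d).ofLp 1).im * i2 + h1

theorem spin_of_bloch {x : Fin n → EuclideanSpace ℝ (Fin 3)} {ψ : G.Dart → Sp}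
    (hu : ∀ d, ip (ψ d) (ψ d) = 1) (hx : ∀ d : G.Dart, x d.snd - x d.fst = bloch (ψ d)) :
    (∀ i j, G.Adj i j → x i ≠ x j) ∧
      ∃ ψ' : G.Dart → EuclideanSpace ℂ (Fin 2), IsSpinorChoice G x ψ' ∧ ∀ d, toS (ψ' d) = ψ d := by
  refine ⟨fun i j hij e => ?_, fun d => !₂[(ψ d).1, (ψ d).2], fun d => ⟨?_, ?_⟩, fun d => rfl⟩
  · have h1 := Spin_norm_bloch (hu ⟨(i, j), hij⟩)
    rw [← hx] at h1
    simp [e] at h1
  · have h1 := Spin_norm_sq !₂[(ψ d).1, (ψ d).2]
    have h2 := hu d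
    rw [Spin_ip_self] at h2
    have h3 : normSq (ψ d).1 + normSq (ψ d).2 = 1 := by exact_mod_cast h2
    have h4 : ‖(!₂[(ψ d).1, (ψ d).2] : EuclideanSpace ℂ (Fin 2))‖ ^ 2 = 1 := h1.trans h3
    nlinarith [norm_nonneg (!₂[(ψ d).1, (ψ d).2] : EuclideanSpace ℂ (Fin 2))]
  · have h1 := Spin_unit_real (hu d)
    rw [dir, hx, Spin_norm_bloch (hu d), inv_one, one_smul, Spin_rows, Spin_bloch_0, Spin_bloch_1,
      Spin_bloch_2]
    change _ * (ψ d).1 + _ * (ψ d).2 = (ψ d).1 ∧ _ * (ψ d).1 - _ * (ψ d).2 = (ψ d).2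
    refine ⟨Complex.ext ?_ ?_, Complex.ext ?_ ?_⟩ <;>
      simp only [add_re, sub_re, mul_re, add_im, sub_im, mul_im, ofReal_re, ofReal_im, I_re, I_im]
    · linear_combination (ψ d).1.re * h1
    · linear_combination (ψ d).1.im * h1
    · linear_combination (ψ d).2.re * h1
    · linear_combination (ψ d).2.im * h1

end Pool.Agent.Lib.MP_b525e0_co.SC
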