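import Pool.Agent.Lib.MP_b525e0_co.SC.Step
import Pool.Agent.Lib.MP_b525e0_co.SC.Spin

namespace Pool.Agent.Lib.MP_b525e0_co.SC

open Complex ComplexConjugate

variable {n : ℕ} {G : SimpleGraph (Fin n)}

theorem asano_lemma {a b c e w : ℂ} {r1 r2 : ℝ} (h1 : 0 ≤ r1) (h2 : 0 ≤ r2) (h : 1 ≤ r1 * r2)
    (hw : ‖w‖ = 1)
    (hne : ∀ x y : ℂ, ‖x‖ ≤ r1 → ‖y‖ ≤ r2 → a + b * x + c * y + e * (x * y) ≠ 0) :
    a + e * w ≠ 0 := by
  intro h0
  have ha : a ≠ 0 := by simpa using hne 0 0 (by simpa using h1) (by simpa using h2)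
  have hae : ‖a‖ = ‖e‖ := by
    rw [eq_neg_of_add_eq_zero_left h0, norm_neg, norm_mul, hw, mul_one]
  have ha0 : 0 < ‖a‖ := norm_pos_iff.2 ha
  obtain ⟨A, hA⟩ : ∃ A : ℂ, A = e * (r1 * r2) := ⟨_, rfl⟩
  obtain ⟨B, hB⟩ : ∃ B : ℂ, B = b * r1 + c * r2 := ⟨_, rfl⟩
  have hAn : ‖a‖ ≤ ‖A‖ := by
    rw [hA, norm_mul, norm_mul, Complex.norm_real, Complex.norm_real, Real.norm_of_nonneg h1,
      Real.norm_of_nonneg h2, ← hae]
    nlinarith
  have hA0 : A ≠ 0 := norm_pos_iff.1 (ha0.trans_le hAn)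
  have key : ∀ t : ℂ, A * t ^ 2 + B * t + a = 0 → 1 < ‖t‖ := by
    intro t ht
    by_contra hn
    have hn' := not_lt.1 hn
    refine hne (r1 * t) (r2 * t) ?_ ?_ ?_
    · rw [norm_mul, Complex.norm_real, Real.norm_of_nonneg h1]
      nlinarith
    · rw [norm_mul, Complex.norm_real, Real.norm_of_nonneg h2]
      nlinarith
    · rw [hA, hB] at ht
      linear_combination ht
  obtain ⟨s, hs⟩ := IsAlgClosed.exists_eq_mul_self (B ^ 2 - 4 * A * a)
  have k1 := key ((-B + s) / (2 * A)) (by field_simp; linear_combination -hs)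
  have k2 := key ((-B - s) / (2 * A)) (by field_simp; linear_combination -hs)
  have k3 : A * ((-B + s) / (2 * A) * ((-B - s) / (2 * A))) = a := by
    field_simp
    linear_combination hs
  have k4 := congrArg norm k3
  rw [norm_mul, norm_mul] at k4
  have k5 := one_lt_mul_of_lt_of_le k1 k2.le
  nlinarith

theorem Phi_biaffine [DecidableEq G.Dart] (U : Finset (Fin n)) (Γ : Finset (Sym2 (Fin n)))
    (ψ : G.Dart → Sp) (z : G.Dart → ℂ) {d d' : G.Dart} (hd : d ≠ d') :
    ∃ a b c e : ℂ, ∀ x y, Phi U Γ ψ (Function.update (Function.update z d x) d' y) =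
      a + b * x + c * y + e * (x * y) := by
  choose α β h using fun x => Phi_affine U Γ ψ (Function.update z d x) d'
  obtain ⟨a, b, h0⟩ := Phi_affine U Γ ψ (Function.update z d' 0) d
  obtain ⟨a', b', h1⟩ := Phi_affine U Γ ψ (Function.update z d' 1) d
  refine ⟨a, b, a' - a, b' - b, fun x y => ?_⟩
  have e0 := h x 0
  have e1 := h x 1
  rw [Function.update_comm hd, h0] at e0
  rw [Function.update_comm hd, h1] at e1
  rw [h]
  linear_combination (y - 1) * e0 - y * e1

theorem asano {ψ : G.Dart → Sp} (hu : ∀ d, ip (ψ d) (ψ d) = 1)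
    (ho : ∀ d : G.Dart, ip (ψ d) (ψ d.symm) = 0) {r : G.Dart → ℝ} (hr : ∀ d, 0 ≤ r d)
    (hr' : ∀ d : G.Dart, 1 ≤ r d * r d.symm)
    (hloc : ∀ (v : Fin n) (z : G.Dart → ℂ), (∀ d : G.Dart, d.fst = v → ‖z d‖ ≤ r d) →
      loc v ψ z ≠ 0) (Γ : Finset (Sym2 (Fin n))) (z : G.Dart → ℂ) (hz : ∀ d, ‖z d‖ ≤ r d) :
    Phi Finset.univ Γ ψ z ≠ 0 := by
  classical
  induction Γ using Finset.induction_on generalizing z with
  | empty =>
    have e : ∀ η, zz ψ ∅ η z = z := fun η => funext fun d => by simp [zz]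
    simp only [Phi, e, Finset.sum_const, nsmul_eq_mul]
    refine mul_ne_zero ?_ (Finset.prod_ne_zero_iff.2 fun v _ => hloc v z fun d _ => hz d)
    exact Nat.cast_ne_zero.2 (Finset.card_ne_zero.2 Finset.univ_nonempty)
  | insert e Γ he ih =>
    by_cases hd : ∃ d : G.Dart, d.edge = e
    · obtain ⟨d, rfl⟩ := hd
      have hne : d ≠ d.symm := (SimpleGraph.Dart.symm_ne d).symm
      obtain ⟨a, b, c, f, h⟩ := Phi_biaffine Finset.univ Γ ψ z hne
      have h2 := Phi_insert_edge Finset.univ ψ z he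
      rw [h, h] at h2
      have hw : ∀ d : G.Dart, ‖ww ψ d‖ = 1 := fun d => by
        rw [ww, norm_div, norm_I, norm_om_of_orth (hu d) (hu d.symm) (ho d), div_one]
      have h3 := asano_lemma (a := a) (b := b) (c := c) (e := f) (w := ww ψ d * ww ψ d.symm)
        (hr d) (hr d.symm) (hr' d) (by rw [norm_mul, hw, hw, mul_one]) fun x y hx hy => by
          rw [← h]
          refine ih _ fun d' => ?_
          by_cases h4 : d' = d.symm
          · rw [h4, Function.update_self]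
            exact hy
          · rw [Function.update_of_ne h4]
            by_cases h5 : d' = d
            · rw [h5, Function.update_self]
              exact hx
            · rw [Function.update_of_ne h5]
              exact hz d'
      intro h0
      rw [h0] at h2
      exact h3 (by linear_combination (-1 / 2 : ℂ) * h2)
    · rw [Phi_congr (Γ' := Γ) (ψ' := ψ) (z' := z) (fun d _ => ?_) (fun _ _ => rfl)
        (fun _ _ _ => rfl) (fun _ _ _ => rfl)]
      · exact ih z hz
      · rw [Finset.mem_insert, or_iff_right fun h => hd ⟨d, h⟩]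

end Pool.Agent.Lib.MP_b525e0_co.SC
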