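import Pool.Agent.Lib.MP_b525e0_co.SC.Defs

namespace Pool.Agent.Lib.MP_b525e0_co.SC

open Complex ComplexConjugate

variable {n : ℕ} {G : SimpleGraph (Fin n)}

theorem locF_transport {v : Fin n} {k : ℕ} (f : Fin k → G.Dart) (hf : ∀ i, (f i).fst = v)
    (hinj : Function.Injective f) (hsurj : ∀ d : G.Dart, d.fst = v → ∃ i, f i = d)
    (ψ : G.Dart → Sp) (z : G.Dart → ℂ) :
    loc v ψ z = ∑ σ : Equiv.Perm (Fin k), ∏ i : Fin k, MM (ψ (f i)) (z (f i)) (ψ (f (σ i))) := by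
  classical
  let g : Fin k → {d : G.Dart // d.fst = v} := fun i => ⟨f i, hf i⟩
  have hg : Function.Bijective g := by
    constructor
    · intro i j hij
      exact hinj (congrArg Subtype.val hij)
    · rintro ⟨d, hd⟩
      obtain ⟨i, hi⟩ := hsurj d hd
      exact ⟨i, Subtype.ext hi⟩
  let e : Fin k ≃ {d : G.Dart // d.fst = v} := Equiv.ofBijective g hg
  unfold loc
  symm
  refine Fintype.sum_equiv e.permCongr _ _ fun σ => ?_
  refine Fintype.prod_equiv e _ _ fun i => ?_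
  rw [Equiv.permCongr_apply, Equiv.symm_apply_apply]
  rfl

theorem loc_zero {v : Fin n} (h : ∀ d : G.Dart, d.fst ≠ v) (ψ : G.Dart → Sp) (z : G.Dart → ℂ) :
    loc v ψ z = 1 := by
  rw [locF_transport (k := 0) (fun i => i.elim0) (fun i => i.elim0) (fun i => i.elim0)
    (fun d hd => absurd hd (h d))]
  simp

theorem loc_one {v : Fin n} {d1 : G.Dart} (h1 : d1.fst = v)
    (h : ∀ d : G.Dart, d.fst = v → d = d1) (ψ : G.Dart → Sp) (z : G.Dart → ℂ) :
    loc v ψ z = ip (ψ d1) (ψ d1) := by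
  rw [locF_transport (k := 1) (fun _ => d1) (fun _ => h1) (fun i j _ => Subsingleton.elim i j)
    (fun d hd => ⟨0, (h d hd).symm⟩)]
  simp [MM, om, mul_comm]

theorem loc_two {v : Fin n} {d1 d2 : G.Dart} (h1 : d1.fst = v) (h2 : d2.fst = v) (h12 : d1 ≠ d2)
    (h : ∀ d : G.Dart, d.fst = v → d = d1 ∨ d = d2) (ψ : G.Dart → Sp) (z : G.Dart → ℂ) :
    loc v ψ z = P2 (ψ d1) (z d1) (ψ d2) (z d2) := by
  rw [locF_transport (k := 2) ![d1, d2] (fun i => by fin_cases i <;> simpa)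
    (fun i j hij => by
      fin_cases i <;> fin_cases j <;> simp_all [eq_comm])
    (fun d hd => by
      rcases h d hd with rfl | rfl
      · exact ⟨0, rfl⟩
      · exact ⟨1, rfl⟩)]
  have hu : (Finset.univ : Finset (Equiv.Perm (Fin 2))) = {1, Equiv.swap 0 1} := by decide
  rw [hu, Finset.sum_pair (by decide)]
  simp [P2, Fin.prod_univ_two]

theorem loc_three {v : Fin n} {d1 d2 d3 : G.Dart} (h1 : d1.fst = v) (h2 : d2.fst = v)
    (h3 : d3.fst = v) (h12 : d1 ≠ d2) (h13 : d1 ≠ d3) (h23 : d2 ≠ d3)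
    (h : ∀ d : G.Dart, d.fst = v → d = d1 ∨ d = d2 ∨ d = d3) (ψ : G.Dart → Sp)
    (z : G.Dart → ℂ) :
    loc v ψ z = P3 (ψ d1) (z d1) (ψ d2) (z d2) (ψ d3) (z d3) := by
  rw [locF_transport (k := 3) ![d1, d2, d3] (fun i => by fin_cases i <;> simpa)
    (fun i j hij => by
      fin_cases i <;> fin_cases j <;> simp_all [eq_comm])
    (fun d hd => by
      rcases h d hd with rfl | rfl | rfl
      · exact ⟨0, rfl⟩
      · exact ⟨1, rfl⟩
      · exact ⟨2, rfl⟩)]
  have hu : (Finset.univ : Finset (Equiv.Perm (Fin 3))) =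
      {1, Equiv.swap 1 2, Equiv.swap 0 1, Equiv.swap 0 1 * Equiv.swap 1 2,
        Equiv.swap 1 2 * Equiv.swap 0 1, Equiv.swap 0 2} := by decide
  rw [hu, Finset.sum_insert (by decide), Finset.sum_insert (by decide),
    Finset.sum_insert (by decide), Finset.sum_insert (by decide), Finset.sum_pair (by decide)]
  simp only [Fin.prod_univ_three, P3, ← add_assoc]
  rfl

theorem loc_flat (v : Fin n) (a : Sp) (z z' : G.Dart → ℂ) :
    loc v (fun _ : G.Dart => a) z = loc v (fun _ : G.Dart => a) z' := by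
  have h0 : om a a = 0 := by simp [om, mul_comm]
  simp only [loc, MM, h0, mul_zero]

theorem shape3 {d1 : G.Dart} (h : Sub3 G d1.fst) :
    (∀ d : G.Dart, d.fst = d1.fst → d = d1) ∨
    (∃ d2 : G.Dart, d2.fst = d1.fst ∧ d1 ≠ d2 ∧
      ∀ d : G.Dart, d.fst = d1.fst → d = d1 ∨ d = d2) ∨
    ∃ d2 d3 : G.Dart, d2.fst = d1.fst ∧ d3.fst = d1.fst ∧ d1 ≠ d2 ∧ d1 ≠ d3 ∧ d2 ≠ d3 ∧
      ∀ d : G.Dart, d.fst = d1.fst → d = d1 ∨ d = d2 ∨ d = d3 := by
  by_cases a1 : ∀ d : G.Dart, d.fst = d1.fst → d = d1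
  · exact Or.inl a1
  push Not at a1
  obtain ⟨d2, b1, b2⟩ := a1
  by_cases a2 : ∀ d : G.Dart, d.fst = d1.fst → d = d1 ∨ d = d2
  · exact Or.inr (Or.inl ⟨d2, b1, b2.symm, a2⟩)
  push Not at a2
  obtain ⟨d3, c1, c2, c3⟩ := a2
  refine Or.inr (Or.inr ⟨d2, d3, b1, c1, b2.symm, c2.symm, c3.symm, fun d hd => ?_⟩)
  rcases h d1 d2 d3 d rfl b1 c1 hd with e | e | e | e | e | e
  · exact absurd e.symm b2
  · exact absurd e.symm c2
  · exact Or.inl e.symm
  · exact absurd e.symm c3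
  · exact Or.inr (Or.inl e.symm)
  · exact Or.inr (Or.inr e.symm)

theorem locF_card [DecidableRel G.Adj] {v : Fin n} (s : Finset G.Dart)
    (hs : ∀ d ∈ s, d.fst = v) : s.card ≤ G.degree v := by
  rw [← SimpleGraph.card_neighborFinset_eq_degree]
  refine Finset.card_le_card_of_injOn (fun d => d.snd) (fun d hd => ?_) fun d hd e he hde => ?_
  · have := d.adj
    rw [hs d hd] at this
    simpa using this
  · exact SimpleGraph.Dart.ext _ _ (Prod.ext ((hs d hd).trans (hs e he).symm) hde)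

theorem sub3_of_degree [DecidableRel G.Adj] {v : Fin n} (h : G.degree v ≤ 3) : Sub3 G v := by
  classical
  intro d1 d2 d3 d4 h1 h2 h3 h4
  by_contra hc
  push Not at hc
  obtain ⟨a, b, c, d, e, f⟩ := hc
  have := locF_card (v := v) ({d1, d2, d3, d4} : Finset G.Dart) (by simp [h1, h2, h3, h4])
  rw [Finset.card_insert_of_notMem (by simp [a, b, c]),
    Finset.card_insert_of_notMem (by simp [d, e]), Finset.card_pair f] at this
  omega

theorem sub2_of_degree [DecidableRel G.Adj] {v : Fin n} (h : G.degree v ≤ 2) : Sub2 G v := by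
  classical
  intro d1 d2 d3 h1 h2 h3
  by_contra hc
  push Not at hc
  obtain ⟨a, b, c⟩ := hc
  have := locF_card (v := v) ({d1, d2, d3} : Finset G.Dart) (by simp [h1, h2, h3])
  rw [Finset.card_insert_of_notMem (by simp [a, b]), Finset.card_pair c] at this
  omega

end Pool.Agent.Lib.MP_b525e0_co.SC
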