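import Pool.Agent.Lib.MP_b525e0_co.SC.Red
import Pool.Agent.Lib.MP_b525e0_co.SC.Asano
import Pool.Agent.Lib.MP_b525e0_co.SC.LocF

namespace Pool.Agent.Lib.MP_b525e0_co.SC

open Complex ComplexConjugate

variable {n : ℕ} {G : SimpleGraph (Fin n)}

theorem Cyc_lagrange {a b : Sp} (ha : ip a a = 1) (hb : ip b b = 1) :
    ‖om a b‖ ^ 2 = 1 - ‖ip a b‖ ^ 2 := by
  have h : om a b * conj (om a b) + ip a b * conj (ip a b) = ip a a * ip b b := by
    simp only [om, ip, map_sub, map_add, map_mul, conj_conj]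
    ring
  rw [ha, hb, mul_conj, mul_conj, normSq_eq_norm_sq, normSq_eq_norm_sq] at h
  have h' : ‖om a b‖ ^ 2 + ‖ip a b‖ ^ 2 = 1 * 1 := by exact_mod_cast h
  linarith

theorem Cyc_P2 {a1 a2 : Sp} (z1 z2 : ℂ) (h1 : ip a1 a1 = 1) (h2 : ip a2 a2 = 1) :
    P2 a1 z1 a2 z2 = 1 + (ip a1 a2 + z1 * om a1 a2) * (conj (ip a1 a2) - z2 * om a1 a2) := by
  have e1 : ip a2 a1 = conj (ip a1 a2) := by
    simp only [ip, map_add, map_mul, conj_conj]; ring
  have e2 : om a2 a1 = -om a1 a2 := by simp only [om]; ring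
  have e3 : om a1 a1 = 0 := by simp only [om]; ring
  have e4 : om a2 a2 = 0 := by simp only [om]; ring
  simp only [P2, MM, h1, h2, e1, e2, e3, e4]
  ring

theorem P2_bent {a1 a2 : Sp} {z1 z2 : ℂ} (h1 : ip a1 a1 = 1) (h2 : ip a2 a2 = 1)
    (hz1 : (1 - ‖ip a1 a2‖ ^ 2) * ‖z1‖ ^ 2 < 1 + ‖ip a1 a2‖ ^ 2)
    (hz2 : (1 - ‖ip a1 a2‖ ^ 2) * ‖z2‖ ^ 2 < 1 + ‖ip a1 a2‖ ^ 2) : P2 a1 z1 a2 z2 ≠ 0 := by
  rw [Cyc_P2 z1 z2 h1 h2]
  rw [← Cyc_lagrange h1 h2, ← mul_pow, ← norm_mul] at hz1 hz2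
  generalize ip a1 a2 = g at *
  generalize om a1 a2 = w at *
  intro h0
  obtain ⟨u, hu⟩ : ∃ u, u = g + z1 * w := ⟨_, rfl⟩
  rw [← hu] at h0
  have e1 : w * z1 = u - g := by rw [hu]; ring
  have e2 : u * (w * z2) = 1 + conj g * u := by linear_combination -h0
  have e3 : ‖u‖ ^ 2 * ‖w * z2‖ ^ 2 = ‖1 + conj g * u‖ ^ 2 := by rw [← mul_pow, ← norm_mul, e2]
  rw [e1] at hz1
  have e4 : ‖u - g‖ ^ 2 + ‖1 + conj g * u‖ ^ 2 = (1 + ‖g‖ ^ 2) * (1 + ‖u‖ ^ 2) := by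
    simp only [← normSq_eq_norm_sq, normSq_apply, sub_re, sub_im, add_re, add_im, mul_re, mul_im,
      conj_re, conj_im, one_re, one_im]
    ring
  have e5 := mul_le_mul_of_nonneg_left hz2.le (sq_nonneg ‖u‖)
  nlinarith

theorem P2_straight {a1 a2 : Sp} {z1 z2 : ℂ} (h1 : ip a1 a1 = 1) (h2 : ip a2 a2 = 1)
    (h : ip a1 a2 = 0) (hz : ‖z1‖ * ‖z2‖ < 1) : P2 a1 z1 a2 z2 ≠ 0 := by
  rw [Cyc_P2 z1 z2 h1 h2, h]
  intro h0
  have e1 : z1 * z2 * (om a1 a2 * om a1 a2) = 1 := by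
    simp only [map_zero] at h0
    linear_combination -h0
  have e2 := congrArg norm e1
  simp only [norm_mul, norm_om_of_orth h1 h2 h, norm_one, mul_one] at e2
  exact hz.ne e2

theorem Cyc_dir_symm (p q : EuclideanSpace ℝ (Fin 3)) : dir q p = -dir p q := by
  rw [dir, dir, norm_sub_rev, ← smul_neg, neg_sub]

theorem Cyc_inner_dir {p q : EuclideanSpace ℝ (Fin 3)} (h : p ≠ q) :
    0 < inner ℝ (q - p) (dir p q) := by
  have h1 : 0 < ‖q - p‖ := norm_pos_iff.2 (sub_ne_zero.2 h.symm)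
  rw [dir, inner_smul_right, real_inner_self_eq_norm_sq]
  positivity

theorem zeroFree_of_sub2 (h : ∀ v, Sub2 G v) : ZeroFree G := by
  classical
  intro x hx ψ Δ hψ hΔ h0
  have h1 := amp_eq hΔ (spin_unit hψ) (spin_orth hψ) (fun _ => 0)
  rw [h0, mul_zero] at h1
  obtain ⟨k, hk⟩ : ∃ k : G.Dart → ℝ,
      k = fun d => -inner ℝ (x d.fst + x d.snd) (dir (x d.fst) (x d.snd)) := ⟨_, rfl⟩
  have hks : ∀ d : G.Dart, k d + k d.symm = 0 := by
    intro d
    rw [hk]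
    change -inner ℝ (x d.fst + x d.snd) (dir (x d.fst) (x d.snd)) +
      -inner ℝ (x d.snd + x d.fst) (dir (x d.snd) (x d.fst)) = 0
    rw [Cyc_dir_symm (x d.fst) (x d.snd), inner_neg_right, add_comm (x d.snd)]
    ring
  have hst : ∀ d e : G.Dart, e.fst = d.fst → ip (toS (ψ d)) (toS (ψ e)) = 0 → k d + k e < 0 := by
    intro d e hde ho
    have e1 : dir (x e.fst) (x e.snd) = -dir (x d.fst) (x d.snd) := by
      rw [spin_bloch hx hψ d, spin_bloch hx hψ e]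
      exact bloch_orth (spin_unit hψ d) (spin_unit hψ e) ho
    have e2 := Cyc_inner_dir (hx _ _ d.adj)
    have e3 := Cyc_inner_dir (hx _ _ e.adj)
    rw [hk]
    change -inner ℝ (x d.fst + x d.snd) (dir (x d.fst) (x d.snd)) +
      -inner ℝ (x e.fst + x e.snd) (dir (x e.fst) (x e.snd)) < 0
    rw [e1] at e3 ⊢
    rw [hde] at e3 ⊢
    simp only [inner_neg_right, inner_add_left, inner_sub_left] at e2 e3 ⊢
    linarith
  have hev : ∀ᶠ ε : ℝ in nhdsWithin 0 (Set.Ioi 0), ∀ p : G.Dart × G.Dart × G.Dart,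
      ip (toS (ψ p.1)) (toS (ψ p.2.1)) ≠ 0 →
      (1 - ‖ip (toS (ψ p.1)) (toS (ψ p.2.1))‖ ^ 2) * Real.exp (ε * k p.2.2) ^ 2 <
        1 + ‖ip (toS (ψ p.1)) (toS (ψ p.2.1))‖ ^ 2 := by
    refine Filter.Eventually.filter_mono nhdsWithin_le_nhds ?_
    rw [Filter.eventually_all]
    intro p
    by_cases hp : ip (toS (ψ p.1)) (toS (ψ p.2.1)) = 0
    · exact Filter.Eventually.of_forall fun _ h => absurd hp h
    have hc : Continuous fun ε : ℝ =>
        (1 - ‖ip (toS (ψ p.1)) (toS (ψ p.2.1))‖ ^ 2) * Real.exp (ε * k p.2.2) ^ 2 := by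
      fun_prop
    have hpos : 0 < ‖ip (toS (ψ p.1)) (toS (ψ p.2.1))‖ ^ 2 := pow_pos (norm_pos_iff.2 hp) 2
    have := (hc.tendsto 0).eventually (gt_mem_nhds
      (a := 1 + ‖ip (toS (ψ p.1)) (toS (ψ p.2.1))‖ ^ 2) (by simp; linarith))
    exact this.mono fun _ h _ => h
  obtain ⟨ε, hε, hε0⟩ := (hev.and self_mem_nhdsWithin).exists
  have hε0' : 0 < ε := hε0
  refine asano (spin_unit hψ) (spin_orth hψ) (r := fun d => Real.exp (ε * k d))
    (fun d => (Real.exp_pos _).le) ?_ ?_ Finset.univ (fun _ => 0)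
    (fun d => by simpa using (Real.exp_pos _).le) h1
  · intro d
    rw [← Real.exp_add, ← mul_add, hks, mul_zero, Real.exp_zero]
  · intro v z hz
    by_cases hv : ∀ d : G.Dart, d.fst ≠ v
    · rw [loc_zero hv]; exact one_ne_zero
    simp only [not_forall, not_not] at hv
    obtain ⟨d1, hd1⟩ := hv
    by_cases hv2 : ∀ d : G.Dart, d.fst = v → d = d1
    · rw [loc_one hd1 hv2, spin_unit hψ]; exact one_ne_zero
    simp only [not_forall] at hv2
    obtain ⟨d2, hd2, hne⟩ := hv2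
    have hall : ∀ d : G.Dart, d.fst = v → d = d1 ∨ d = d2 := by
      intro d hd
      rcases h v d d1 d2 hd hd1 hd2 with h' | h' | h'
      · exact Or.inl h'
      · exact Or.inr h'
      · exact absurd h'.symm hne
    rw [loc_two hd1 hd2 (Ne.symm hne) hall]
    have z1 := hz d1 hd1
    have z2 := hz d2 hd2
    by_cases hp : ip (toS (ψ d1)) (toS (ψ d2)) = 0
    · refine P2_straight (spin_unit hψ d1) (spin_unit hψ d2) hp ?_
      have e1 := hst d1 d2 (hd2.trans hd1.symm) hp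
      have e2 : Real.exp (ε * k d1) * Real.exp (ε * k d2) < 1 := by
        rw [← Real.exp_add, ← mul_add, Real.exp_lt_one_iff]
        exact mul_neg_of_pos_of_neg hε0' e1
      exact (mul_le_mul z1 z2 (norm_nonneg _) (Real.exp_pos _).le).trans_lt e2
    · have hn : 0 ≤ 1 - ‖ip (toS (ψ d1)) (toS (ψ d2))‖ ^ 2 := by
        rw [← Cyc_lagrange (spin_unit hψ d1) (spin_unit hψ d2)]; positivity
      refine P2_bent (spin_unit hψ d1) (spin_unit hψ d2) ?_ ?_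
      · exact (mul_le_mul_of_nonneg_left (pow_le_pow_left₀ (norm_nonneg _) z1 2) hn).trans_lt
          (hε (d1, d2, d1) hp)
      · exact (mul_le_mul_of_nonneg_left (pow_le_pow_left₀ (norm_nonneg _) z2 2) hn).trans_lt
          (hε (d1, d2, d2) hp)

end Pool.Agent.Lib.MP_b525e0_co.SC
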