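import Pool.Agent.Lib.MP_b525e0_co.SC.PDefs

/-!
Working definitions: spinors as pairs, local permanents, contractions along edges.
-/

namespace Pool.Agent.Lib.MP_b525e0_co.SC

open Complex ComplexConjugate

/-- Spinors as pairs. -/
abbrev Sp : Type := ℂ × ℂ

/-- Hermitian product, antilinear in the first slot. -/
noncomputable def ip (a b : Sp) : ℂ := conj a.1 * b.1 + conj a.2 * b.2

/-- Symplectic form. -/
noncomputable def om (a b : Sp) : ℂ := a.1 * b.2 - a.2 * b.1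

/-- The antipodal spinor. -/
noncomputable def JJ (a : Sp) : Sp := (-conj a.2, conj a.1)

/-- The tilted covector of `a` evaluated at `b`. -/
noncomputable def MM (a : Sp) (z : ℂ) (b : Sp) : ℂ := ip a b + z * om a b

/-- The permanent at a vertex of degree two. -/
noncomputable def P2 (a1 : Sp) (z1 : ℂ) (a2 : Sp) (z2 : ℂ) : ℂ :=
  MM a1 z1 a1 * MM a2 z2 a2 + MM a1 z1 a2 * MM a2 z2 a1

/-- The permanent at a vertex of degree three. -/
noncomputable def P3 (a1 : Sp) (z1 : ℂ) (a2 : Sp) (z2 : ℂ) (a3 : Sp) (z3 : ℂ) : ℂ :=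
  MM a1 z1 a1 * MM a2 z2 a2 * MM a3 z3 a3 + MM a1 z1 a1 * MM a2 z2 a3 * MM a3 z3 a2 +
    MM a1 z1 a2 * MM a2 z2 a1 * MM a3 z3 a3 + MM a1 z1 a2 * MM a2 z2 a3 * MM a3 z3 a1 +
    MM a1 z1 a3 * MM a2 z2 a1 * MM a3 z3 a2 + MM a1 z1 a3 * MM a2 z2 a2 * MM a3 z3 a1

/-- A vector of `ℂ²` as a pair. -/
def toS (a : EuclideanSpace ℂ (Fin 2)) : Sp := (a 0, a 1)

/-- The Bloch vector of a spinor. -/
noncomputable def bloch (a : Sp) : EuclideanSpace ℝ (Fin 3) :=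
  !₂[2 * (conj a.1 * a.2).re, 2 * (conj a.1 * a.2).im, normSq a.1 - normSq a.2]

variable {n : ℕ} {G : SimpleGraph (Fin n)}

open Classical in
/-- The local permanent at the vertex `v`. -/
noncomputable def loc (v : Fin n) (ψ : G.Dart → Sp) (z : G.Dart → ℂ) : ℂ :=
  ∑ σ : Equiv.Perm {d : G.Dart // d.fst = v},
    ∏ d : {d : G.Dart // d.fst = v}, MM (ψ d) (z d) (ψ (σ d))

/-- The unimodular value put on a contracted dart. -/
noncomputable def ww (ψ : G.Dart → Sp) (d : G.Dart) : ℂ := I / om (ψ d) (ψ d.symm)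

/-- The tilts after the edges in `Γ` have been given the signs `η`. -/
noncomputable def zz (ψ : G.Dart → Sp) (Γ : Finset (Sym2 (Fin n))) (η : Sym2 (Fin n) → Bool)
    (z : G.Dart → ℂ) (d : G.Dart) : ℂ :=
  if d.edge ∈ Γ then (if η d.edge then 1 else -1) * ww ψ d else z d

/-- The product of the local permanents over `U`, contracted along the edges in `Γ`. -/
noncomputable def Phi (U : Finset (Fin n)) (Γ : Finset (Sym2 (Fin n))) (ψ : G.Dart → Sp)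
    (z : G.Dart → ℂ) : ℂ :=
  ∑ η : Sym2 (Fin n) → Bool, ∏ v ∈ U, loc v ψ (zz ψ Γ η z)

/-- At most three darts start at `v`. -/
def Sub3 (G : SimpleGraph (Fin n)) (v : Fin n) : Prop :=
  ∀ d1 d2 d3 d4 : G.Dart, d1.fst = v → d2.fst = v → d3.fst = v → d4.fst = v →
    d1 = d2 ∨ d1 = d3 ∨ d1 = d4 ∨ d2 = d3 ∨ d2 = d4 ∨ d3 = d4

/-- At most two darts start at `v`. -/
def Sub2 (G : SimpleGraph (Fin n)) (v : Fin n) : Prop :=
  ∀ d1 d2 d3 : G.Dart, d1.fst = v → d2.fst = v → d3.fst = v → d1 = d2 ∨ d1 = d3 ∨ d2 = d3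

/-- The local inequalities at `v`. -/
def Loc (r : G.Dart → ℝ) (v : Fin n) : Prop :=
  (∀ d1 d2 : G.Dart, d1.fst = v → d2.fst = v → d1 ≠ d2 →
    r d1 ^ 2 + 6 * r d1 * r d2 + r d2 ^ 2 < 8) ∧
  ∀ d1 d2 d3 : G.Dart, d1.fst = v → d2.fst = v → d3.fst = v → d1 ≠ d2 → d1 ≠ d3 → d2 ≠ d3 →
    r d1 + r d2 + r d3 < √3

/-- The local permanent at the tail of `d` has a zero with the data `a`, `z1` on `d` and tilts
bounded by `τ` on the other darts. -/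
def HasZero (d : G.Dart) (τ : G.Dart → ℝ) (a : Sp) (z1 : ℂ) : Prop :=
  ∃ (ψ : G.Dart → Sp) (z : G.Dart → ℂ), (∀ e, ip (ψ e) (ψ e) = 1) ∧ ψ d = a ∧ z d = z1 ∧
    (∀ e : G.Dart, e.fst = d.fst → e ≠ d → ‖z e‖ ≤ τ e) ∧ loc d.fst ψ z = 0

/-- The contraction over `U` has no zero for boundary tilts bounded by `τ`. -/
def NoZero (U : Finset (Fin n)) (τ : G.Dart → ℝ) : Prop :=
  ∀ (ψ : G.Dart → Sp) (z : G.Dart → ℂ), (∀ e, ip (ψ e) (ψ e) = 1) →
    (∀ e : G.Dart, e.fst ∈ U → e.snd ∈ U → ip (ψ e) (ψ e.symm) = 0) →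
    (∀ e : G.Dart, e.fst ∈ U → e.snd ∉ U → ‖z e‖ ≤ τ e) → Phi U U.sym2 ψ z ≠ 0

/-- A certificate on `U` that beats the boundary bounds `τ`. -/
def Cert (U : Finset (Fin n)) (τ : G.Dart → ℝ) : Prop :=
  ∃ r : G.Dart → ℝ, (∀ e : G.Dart, e.fst ∈ U → e.snd ∈ U → 0 < r e ∧ r e * r e.symm = 1) ∧
    (∀ e : G.Dart, e.fst ∈ U → e.snd ∉ U → τ e < r e) ∧ ∀ v ∈ U, Loc r v

end Pool.Agent.Lib.MP_b525e0_co.SC
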