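import Pool.Agent.Lib.MP_b525e0_co.SC.Main

/-!
The cubic tree of depth two (10 vertices) has no certificate.
-/

namespace Pool.Agent.Lib.MP_b525e0_co.SC

/-- The parent of a vertex of the cubic tree of depth two. -/
def par : Fin 10 → Fin 10 := ![0, 0, 0, 0, 1, 1, 2, 2, 3, 3]

/-- The cubic tree of depth two. -/
def cubic : SimpleGraph (Fin 10) where
  Adj i j := i ≠ j ∧ (par i = j ∨ par j = i)
  symm := ⟨fun _ _ h => ⟨h.1.symm, h.2.symm⟩⟩
  loopless := ⟨fun _ h => h.1 rfl⟩

instance cubicDec : DecidableRel cubic.Adj :=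
  fun i j => inferInstanceAs (Decidable (i ≠ j ∧ (par i = j ∨ par j = i)))

theorem cubic_degree : ∀ v, cubic.degree v ≤ 3 := by decide

theorem cubic_isTree : cubic.IsTree := by
  rw [SimpleGraph.isTree_iff_connected_and_card]
  constructor
  · have h1 : ∀ v, cubic.Reachable (par v) v := by
      intro v
      by_cases h : par v = v
      · rw [h]
      · exact SimpleGraph.Adj.reachable ⟨h, Or.inr rfl⟩
    have h2 : ∀ v, par (par v) = 0 := by decide
    have h4 : ∀ v, cubic.Reachable 0 v := by
      intro v
      have := (h1 (par v)).trans (h1 v)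
      rwa [h2] at this
    exact ⟨fun u v => (h4 u).symm.trans (h4 v)⟩
  · have h1 := cubic.sum_degrees_eq_twice_card_edges
    have h2 : Nat.card cubic.edgeSet = cubic.edgeFinset.card := by
      rw [Nat.card_eq_fintype_card, SimpleGraph.edgeFinset_card]
    have h3 : ∑ v, cubic.degree v = 18 := by decide
    rw [h2]
    simp only [Nat.card_eq_fintype_card, Fintype.card_fin]
    omega

theorem cubic_not_zeroFree : ¬ ZeroFree cubic := by
  rw [zeroFree_iff cubic_isTree.isAcyclic (fun v => sub3_of_degree (cubic_degree v))]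
  rintro ⟨r, h1, _, h3⟩
  have hs : √3 * √3 = (3 : ℝ) := Real.mul_self_sqrt (by norm_num)
  have hp : (0 : ℝ) < √3 := Real.sqrt_pos.2 (by norm_num)
  have key : ∀ m a b : Fin 10, cubic.Adj m 0 → cubic.Adj m a → cubic.Adj m b → 0 ≠ a → 0 ≠ b →
      a ≠ b → 1 < √3 * r 0 m := by
    intro m a b h0 ha hb h0a h0b hab
    have e1 := h3 m 0 a b h0 ha hb h0a h0b hab
    have e2 := (h1 m a ha).1
    have e3 := (h1 m b hb).1
    have e4 := (h1 m 0 h0).2
    have e5 := (h1 0 m h0.symm).1
    nlinarith
  have k1 := key 1 4 5 (by decide) (by decide) (by decide) (by decide) (by decide) (by decide)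
  have k2 := key 2 6 7 (by decide) (by decide) (by decide) (by decide) (by decide) (by decide)
  have k3 := key 3 8 9 (by decide) (by decide) (by decide) (by decide) (by decide) (by decide)
  have k4 := h3 0 1 2 3 (by decide) (by decide) (by decide) (by decide) (by decide) (by decide)
  nlinarith

end Pool.Agent.Lib.MP_b525e0_co.SC
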