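import Pool.Agent.Lib.MP_b525e0_co.SC.Defs

namespace Pool.Agent.Lib.MP_b525e0_co.SC

open Complex ComplexConjugate

variable {n : ℕ} {G : SimpleGraph (Fin n)}

/-- first coordinate of the complex vector of a tilted spinor -/
noncomputable def ineqA (a : Sp) (z : ℂ) : ℂ :=
  a.1 * (conj a.2 + z * a.1) + a.2 * (conj a.1 - z * a.2)

/-- second coordinate of the complex vector of a tilted spinor -/
noncomputable def ineqB (a : Sp) (z : ℂ) : ℂ :=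
  I * (a.1 * (conj a.2 + z * a.1) - a.2 * (conj a.1 - z * a.2))

/-- third coordinate of the complex vector of a tilted spinor -/
noncomputable def ineqC (a : Sp) (z : ℂ) : ℂ :=
  a.1 * (conj a.1 - z * a.2) - a.2 * (conj a.2 + z * a.1)

/-- the bilinear product of two such vectors -/
noncomputable def ineqD (a : Sp) (z : ℂ) (b : Sp) (w : ℂ) : ℂ :=
  ineqA a z * ineqA b w + ineqB a z * ineqB b w + ineqC a z * ineqC b w

theorem ineq_D (a : Sp) (z : ℂ) (b : Sp) (w : ℂ) :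
    ineqD a z b w = 2 * (MM a z b * MM b w a) - MM a z a * MM b w b := by
  unfold ineqD ineqA ineqB ineqC MM ip om
  linear_combination ((a.1 * (conj a.2 + z * a.1) - a.2 * (conj a.1 - z * a.2)) *
    (b.1 * (conj b.2 + w * b.1) - b.2 * (conj b.1 - w * b.2))) * I_mul_I

theorem ineq_T {a : Sp} (z : ℂ) (h : ip a a = 1) : MM a z a = 1 := by
  unfold MM om
  rw [h]
  ring

theorem ineq_norms {a : Sp} (z : ℂ) (h : ip a a = 1) :
    (ineqA a z).re ^ 2 + (ineqB a z).re ^ 2 + (ineqC a z).re ^ 2 = 1 + ‖z‖ ^ 2 ∧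
      (ineqA a z).im ^ 2 + (ineqB a z).im ^ 2 + (ineqC a z).im ^ 2 = ‖z‖ ^ 2 := by
  have h1 : a.1.re ^ 2 + a.1.im ^ 2 + a.2.re ^ 2 + a.2.im ^ 2 = 1 := by
    have h2 := congrArg Complex.re h
    simp only [ip, add_re, mul_re, conj_re, conj_im, one_re] at h2
    linear_combination h2
  rw [Complex.sq_norm, normSq_apply]
  simp only [ineqA, ineqB, ineqC, add_re, add_im, sub_re, sub_im, mul_re, mul_im, conj_re, conj_im,
    I_re, I_im]
  constructor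
  · linear_combination (1 + (z.re * z.re + z.im * z.im)) *
      (a.1.re ^ 2 + a.1.im ^ 2 + a.2.re ^ 2 + a.2.im ^ 2 + 1) * h1
  · linear_combination (z.re * z.re + z.im * z.im) *
      (a.1.re ^ 2 + a.1.im ^ 2 + a.2.re ^ 2 + a.2.im ^ 2 + 1) * h1

theorem ineq_re (a : Sp) (z : ℂ) (b : Sp) (w : ℂ) :
    (ineqD a z b w).re = (ineqA a z).re * (ineqA b w).re + (ineqB a z).re * (ineqB b w).re +
      (ineqC a z).re * (ineqC b w).re - ((ineqA a z).im * (ineqA b w).im +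
      (ineqB a z).im * (ineqB b w).im + (ineqC a z).im * (ineqC b w).im) := by
  simp only [ineqD, add_re, mul_re]
  ring

theorem ineq_cs (x1 x2 x3 y1 y2 y3 : ℝ) : (x1 * y1 + x2 * y2 + x3 * y3) ^ 2 ≤
    (x1 ^ 2 + x2 ^ 2 + x3 ^ 2) * (y1 ^ 2 + y2 ^ 2 + y3 ^ 2) := by
  nlinarith [sq_nonneg (x1 * y2 - x2 * y1), sq_nonneg (x1 * y3 - x3 * y1),
    sq_nonneg (x2 * y3 - x3 * y2)]

theorem ineq_im {a b : Sp} (z w : ℂ) (ha : ip a a = 1) (hb : ip b b = 1) :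
    (ineqA a z).im * (ineqA b w).im + (ineqB a z).im * (ineqB b w).im +
      (ineqC a z).im * (ineqC b w).im ≤ ‖z‖ * ‖w‖ := by
  refine (le_abs_self _).trans (abs_le_of_sq_le_sq ((ineq_cs _ _ _ _ _ _).trans_eq ?_)
    (by positivity))
  rw [(ineq_norms z ha).2, (ineq_norms w hb).2, mul_pow]

theorem P2_ne_zero {a1 a2 : Sp} {z1 z2 : ℂ} (h1 : ip a1 a1 = 1) (h2 : ip a2 a2 = 1)
    (h : ‖z1‖ ^ 2 + 6 * ‖z1‖ * ‖z2‖ + ‖z2‖ ^ 2 < 8) : P2 a1 z1 a2 z2 ≠ 0 := by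
  intro h0
  have e : ineqD a1 z1 a2 z2 = -3 := by
    unfold P2 at h0
    rw [ineq_T z1 h1, ineq_T z2 h2] at h0
    rw [ineq_D, ineq_T z1 h1, ineq_T z2 h2]
    linear_combination 2 * h0
  have e1 : (ineqD a1 z1 a2 z2).re = -3 := by rw [e]; simp
  rw [ineq_re] at e1
  have c1 := ineq_cs (ineqA a1 z1).re (ineqB a1 z1).re (ineqC a1 z1).re (ineqA a2 z2).re
    (ineqB a2 z2).re (ineqC a2 z2).re
  rw [(ineq_norms z1 h1).1, (ineq_norms z2 h2).1] at c1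
  have c2 := ineq_im z1 z2 h1 h2
  obtain ⟨u, hu⟩ : ∃ u, u = (ineqA a1 z1).re * (ineqA a2 z2).re +
    (ineqB a1 z1).re * (ineqB a2 z2).re + (ineqC a1 z1).re * (ineqC a2 z2).re := ⟨_, rfl⟩
  rw [← hu] at e1 c1
  have c3 : 3 - ‖z1‖ * ‖z2‖ ≤ -u := by linarith
  have c4 : 0 ≤ 3 - ‖z1‖ * ‖z2‖ := by nlinarith [sq_nonneg ‖z1‖, sq_nonneg ‖z2‖]
  have c5 := pow_le_pow_left₀ c4 c3 2
  nlinarith

theorem P3_ne_zero {a1 a2 a3 : Sp} {z1 z2 z3 : ℂ} (h1 : ip a1 a1 = 1) (h2 : ip a2 a2 = 1)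
    (h3 : ip a3 a3 = 1) (h : ‖z1‖ + ‖z2‖ + ‖z3‖ < √3) : P3 a1 z1 a2 z2 a3 z3 ≠ 0 := by
  intro h0
  have e : 3 + ineqD a1 z1 a2 z2 + ineqD a1 z1 a3 z3 + ineqD a2 z2 a3 z3 = 0 := by
    have t1 := ineq_T z1 h1
    have t2 := ineq_T z2 h2
    have t3 := ineq_T z3 h3
    have key : P3 a1 z1 a2 z2 a3 z3 = 3 * (MM a1 z1 a1 * MM a2 z2 a2 * MM a3 z3 a3) +
        MM a3 z3 a3 * ineqD a1 z1 a2 z2 + MM a2 z2 a2 * ineqD a1 z1 a3 z3 +
        MM a1 z1 a1 * ineqD a2 z2 a3 z3 := by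
      rw [ineq_D, ineq_D, ineq_D]
      unfold P3 MM ip om
      ring
    rw [t1, t2, t3, h0] at key
    linear_combination -key
  have e1 := congrArg Complex.re e
  rw [add_re, add_re, add_re, ineq_re, ineq_re, ineq_re, zero_re,
    (by simp : (3 : ℂ).re = 3)] at e1
  have c12 := ineq_im z1 z2 h1 h2
  have c13 := ineq_im z1 z3 h1 h3
  have c23 := ineq_im z2 z3 h2 h3
  have n1 := (ineq_norms z1 h1).1
  have n2 := (ineq_norms z2 h2).1
  have n3 := (ineq_norms z3 h3).1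
  have hs : (‖z1‖ + ‖z2‖ + ‖z3‖) ^ 2 < 3 := (Real.lt_sqrt (by positivity)).1 h
  nlinarith [sq_nonneg ((ineqA a1 z1).re + (ineqA a2 z2).re + (ineqA a3 z3).re),
    sq_nonneg ((ineqB a1 z1).re + (ineqB a2 z2).re + (ineqB a3 z3).re),
    sq_nonneg ((ineqC a1 z1).re + (ineqC a2 z2).re + (ineqC a3 z3).re)]

end Pool.Agent.Lib.MP_b525e0_co.SC
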