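import Pool.Agent.Lib.MP_b525e0_co.SC.Trans

namespace Pool.Agent.Lib.MP_b525e0_co.SC

open Complex ComplexConjugate

variable {n : ℕ} {G : SimpleGraph (Fin n)}

theorem zero_ip {s : ℝ} (hs : 2 * s ^ 2 = 1) {w : ℂ} (hw : conj w * w = 1) :
    ip ((s : ℂ), s * w) ((s : ℂ), s * w) = 1 := by
  have hs' : 2 * (s : ℂ) ^ 2 = 1 := by exact_mod_cast hs
  simp only [ip, map_mul, conj_ofReal]
  linear_combination hs' + (s : ℂ) ^ 2 * hw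

theorem zero_diag {s : ℝ} (hs : 2 * s ^ 2 = 1) {w : ℂ} (hw : conj w * w = 1) (z : ℂ) :
    MM ((s : ℂ), s * w) z ((s : ℂ), s * w) = 1 := by
  rw [MM, zero_ip hs hw, om]
  ring

theorem zero_MM {s : ℝ} (hs : 2 * s ^ 2 = 1) (t : ℝ) {w : ℂ} (hw : conj w * w = 1) (w' : ℂ) :
    MM ((s : ℂ), s * w) (I * t * conj w) ((s : ℂ), s * w') =
      ((1 - I * t) + (1 + I * t) * conj w * w') / 2 := by
  have hs' : 2 * (s : ℂ) ^ 2 = 1 := by exact_mod_cast hs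
  simp only [MM, ip, om, map_mul, conj_ofReal]
  linear_combination (1 / 2) * (1 + conj w * w' + I * t * conj w * w' - I * t * conj w * w) * hs'
    - (1 / 2) * I * t * hw

theorem zero_norm {t : ℝ} (ht : 0 ≤ t) {w : ℂ} (hw : conj w * w = 1) :
    ‖I * t * conj w‖ = t := by
  have h1 : ‖w‖ * ‖w‖ = 1 := by
    have := congrArg norm hw
    rwa [norm_mul, Complex.norm_conj, norm_one] at this
  have h2 : ‖w‖ = 1 := by nlinarith [norm_nonneg w]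
  rw [norm_mul, norm_mul, norm_I, Complex.norm_conj, h2, norm_real, Real.norm_of_nonneg ht]
  ring

theorem zero_P2 {s : ℝ} (hs : 2 * s ^ 2 = 1) (t1 t2 : ℝ) {w : ℂ} (hw : conj w * w = 1) :
    P2 ((s : ℂ), (s : ℂ)) (I * t1) ((s : ℂ), s * w) (I * t2 * conj w) =
      (3 - t1 * t2 + ((1 - I * t1) * (1 + I * t2) * conj w +
        (1 + I * t1) * (1 - I * t2) * w) / 2) / 2 := by
  have h1 : conj (1 : ℂ) * 1 = 1 := by rw [map_one, mul_one]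
  have e : P2 ((s : ℂ), (s : ℂ)) (I * t1) =
      P2 ((s : ℂ), s * 1) (I * t1 * conj (1 : ℂ)) := by rw [map_one, mul_one, mul_one]
  rw [e, P2, zero_diag hs h1, zero_diag hs hw, zero_MM hs t1 h1, zero_MM hs t2 hw, map_one]
  linear_combination (1 + I * t1) * (1 + I * t2) / 4 * hw + (t1 * t2 / 2 : ℂ) * I_sq

theorem zero_P3 {s : ℝ} (hs : 2 * s ^ 2 = 1) (t1 t2 t3 : ℝ) {w2 w3 : ℂ}
    (h2 : conj w2 * w2 = 1) (h3 : conj w3 * w3 = 1) :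
    P3 ((s : ℂ), (s : ℂ)) (I * t1) ((s : ℂ), s * w2) (I * t2 * conj w2)
      ((s : ℂ), s * w3) (I * t3 * conj w3) =
      3 - (t1 * t2 + t1 * t3 + t2 * t3) +
        (((1 - I * t1) * (1 + I * t2) * conj w2 + (1 + I * t1) * (1 - I * t2) * w2) +
        ((1 - I * t1) * (1 + I * t3) * conj w3 + (1 + I * t1) * (1 - I * t3) * w3) +
        ((1 - I * t2) * (1 + I * t3) * w2 * conj w3 +
          (1 + I * t2) * (1 - I * t3) * conj w2 * w3)) / 2 := by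
  have h1 : conj (1 : ℂ) * 1 = 1 := by rw [map_one, mul_one]
  have e : P3 ((s : ℂ), (s : ℂ)) (I * t1) =
      P3 ((s : ℂ), s * 1) (I * t1 * conj (1 : ℂ)) := by rw [map_one, mul_one, mul_one]
  rw [e, P3, zero_diag hs h1, zero_diag hs h2, zero_diag hs h3, zero_MM hs t1 h1,
    zero_MM hs t1 h1, zero_MM hs t2 h2, zero_MM hs t2 h2, zero_MM hs t3 h3, zero_MM hs t3 h3,
    map_one]
  linear_combination
    (((1 + I * t2) * (1 + I * t3) + (1 + I * t1) * (1 + I * t2)) / 4 +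
      ((1 + I * t1) * (1 + I * t2) * (1 - I * t3) * w3 +
        2 * (1 + I * t1) * (1 + I * t2) * (1 + I * t3) +
        (1 - I * t1) * (1 + I * t2) * (1 + I * t3) * conj w3) / 8) * h2 +
    (((1 + I * t2) * (1 + I * t3) * (w2 * conj w2) + (1 + I * t1) * (1 + I * t3)) / 4 +
      ((1 - I * t1) * (1 + I * t2) * (1 + I * t3) * conj w2 +
        2 * (1 + I * t1) * (1 + I * t2) * (1 + I * t3) * (w2 * conj w2) +
        (1 + I * t1) * (1 - I * t2) * (1 + I * t3) * w2) / 8) * h3 +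
    (t1 * t2 + t1 * t3 + t2 * t3 : ℂ) * I_sq

theorem zero_ne (t : ℝ) : (1 + I * t : ℂ) ≠ 0 ∧ (1 - I * t : ℂ) ≠ 0 := by
  constructor <;> intro h <;> have := congrArg Complex.re h <;> simp at this

theorem zero_ex (t1 t2 x : ℝ) (hx : x ^ 2 ≤ (1 + t1 ^ 2) * (1 + t2 ^ 2)) :
    ∃ w : ℂ, conj w * w = 1 ∧
      (1 - I * t1) * (1 + I * t2) * conj w + (1 + I * t1) * (1 - I * t2) * w = 2 * x := by
  obtain ⟨y, hy⟩ : ∃ y : ℝ, y ^ 2 = (1 + t1 ^ 2) * (1 + t2 ^ 2) - x ^ 2 :=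
    ⟨√_, Real.sq_sqrt (by linarith)⟩
  have hy' : (y : ℂ) ^ 2 = (1 + t1 ^ 2) * (1 + t2 ^ 2) - x ^ 2 := by exact_mod_cast hy
  have hu : ((1 + I * t1) * (1 - I * t2) : ℂ) ≠ 0 := mul_ne_zero (zero_ne t1).1 (zero_ne t2).2
  have hv : ((1 - I * t1) * (1 + I * t2) : ℂ) ≠ 0 := mul_ne_zero (zero_ne t1).2 (zero_ne t2).1
  obtain ⟨w, hw⟩ : ∃ w : ℂ, (1 + I * t1) * (1 - I * t2) * w = x + I * y :=
    ⟨_, mul_div_cancel₀ _ hu⟩
  have hc : (1 - I * t1) * (1 + I * t2) * conj w = x - I * y := by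
    have := congrArg conj hw
    simp only [map_mul, map_add, map_sub, map_one, conj_I, conj_ofReal] at this
    linear_combination this
  refine ⟨w, ?_, by linear_combination hw + hc⟩
  refine mul_left_cancel₀ (mul_ne_zero hu hv) ?_
  linear_combination ((1 - I * t1) * (1 + I * t2) * conj w) * hw + (x + I * y) * hc + hy' +
    (-(y : ℂ) ^ 2 + t1 ^ 2 + t2 ^ 2 + t1 ^ 2 * t2 ^ 2 - I ^ 2 * t1 ^ 2 * t2 ^ 2) * I_sq

theorem zero_s : ∃ s : ℝ, 2 * s ^ 2 = 1 :=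
  ⟨√(1 / 2), by rw [Real.sq_sqrt (by norm_num)]; norm_num⟩

theorem P2_zero {a : Sp} (ha : ip a a = 1) (z1 : ℂ) {t2 : ℝ} (h2 : 0 ≤ t2)
    (h : 8 ≤ ‖z1‖ ^ 2 + 6 * ‖z1‖ * t2 + t2 ^ 2) :
    ∃ (a2 : Sp) (z2 : ℂ), ip a2 a2 = 1 ∧ ‖z2‖ ≤ t2 ∧ P2 a z1 a2 z2 = 0 := by
  obtain ⟨s, hs⟩ := zero_s
  obtain ⟨w, hw, he⟩ := zero_ex ‖z1‖ t2 (‖z1‖ * t2 - 3) (by nlinarith)
  have h0 : P2 ((s : ℂ), (s : ℂ)) (I * (‖z1‖ : ℝ)) ((s : ℂ), s * w) (I * t2 * conj w) = 0 := by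
    rw [zero_P2 hs _ _ hw, he]
    push_cast
    ring
  obtain ⟨a2, h1, h3⟩ := P2_transport hs (zero_ip hs hw) h0 ha rfl
  exact ⟨a2, _, h1, (zero_norm h2 hw).le, h3⟩

theorem P3_zero {a : Sp} (ha : ip a a = 1) (z1 : ℂ) {t2 t3 : ℝ} (h2 : 0 ≤ t2) (h3 : 0 ≤ t3)
    (h : √3 ≤ ‖z1‖ + t2 + t3) :
    ∃ (a2 : Sp) (z2 : ℂ) (a3 : Sp) (z3 : ℂ), ip a2 a2 = 1 ∧ ip a3 a3 = 1 ∧ ‖z2‖ ≤ t2 ∧
      ‖z3‖ ≤ t3 ∧ P3 a z1 a2 z2 a3 z3 = 0 := by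
  obtain ⟨s, hs⟩ := zero_s
  have hq : √3 ^ 2 = 3 := Real.sq_sqrt (by norm_num)
  have hq0 : 0 ≤ √3 := Real.sqrt_nonneg _
  obtain ⟨t1, ht1⟩ : ∃ t1 : ℝ, ‖z1‖ = t1 := ⟨_, rfl⟩
  have h1 : 0 ≤ t1 := ht1 ▸ norm_nonneg z1
  rw [ht1] at h
  have fin : ∀ (u2 u3 : ℝ) (w2 w3 : ℂ), 0 ≤ u2 → u2 ≤ t2 → 0 ≤ u3 → u3 ≤ t3 →
      conj w2 * w2 = 1 → conj w3 * w3 = 1 →
      P3 ((s : ℂ), (s : ℂ)) (I * t1) ((s : ℂ), s * w2) (I * u2 * conj w2)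
        ((s : ℂ), s * w3) (I * u3 * conj w3) = 0 →
      ∃ (a2 : Sp) (z2 : ℂ) (a3 : Sp) (z3 : ℂ), ip a2 a2 = 1 ∧ ip a3 a3 = 1 ∧ ‖z2‖ ≤ t2 ∧
        ‖z3‖ ≤ t3 ∧ P3 a z1 a2 z2 a3 z3 = 0 := by
    intro u2 u3 w2 w3 k1 k2 k3 k4 k5 k6 k7
    obtain ⟨a2, a3, m1, m2, m3⟩ := P3_transport hs (zero_ip hs k5) (zero_ip hs k6) k7 ha ht1
    exact ⟨a2, _, a3, _, m1, m2, (zero_norm k1 k5).le.trans k2, (zero_norm k3 k6).le.trans k4, m3⟩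
  rcases le_total √3 t1 with hc | hc
  · obtain ⟨w, hw, he⟩ := zero_ex t1 0 (-2) (by nlinarith)
    refine fin 0 0 w w le_rfl h2 le_rfl h3 hw hw ?_
    rw [zero_P3 hs _ _ _ hw hw]
    push_cast at he ⊢
    linear_combination he + hw
  · obtain ⟨u2, u3, k1, k2, k3, k4, k5⟩ : ∃ u2 u3 : ℝ, 0 ≤ u2 ∧ u2 ≤ t2 ∧ 0 ≤ u3 ∧ u3 ≤ t3 ∧
        t1 + u2 + u3 = √3 := by
      rcases le_total t2 (√3 - t1) with h4 | h4
      · exact ⟨t2, √3 - t1 - t2, h2, le_rfl, by linarith, by linarith, by ring⟩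
      · exact ⟨√3 - t1, 0, by linarith, h4, le_rfl, h3, by ring⟩
    have k6 : (t1 + u2 + u3) ^ 2 = 3 := by rw [k5, hq]
    have k7 : t1 ^ 2 + u2 ^ 2 + u3 ^ 2 ≤ 3 := by
      nlinarith [mul_nonneg h1 k1, mul_nonneg h1 k3, mul_nonneg k1 k3]
    obtain ⟨w2, hw2, he⟩ := zero_ex t1 u2 ((u3 ^ 2 - 1 - t1 ^ 2 - u2 ^ 2) / 2) (by
      have a1 := sq_nonneg t1
      have a2 := sq_nonneg u2
      have a3 := sq_nonneg u3
      generalize t1 ^ 2 = x at *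
      generalize u2 ^ 2 = y at *
      generalize u3 ^ 2 = z at *
      nlinarith [mul_nonneg a1 a2, mul_nonneg a1 a3, mul_nonneg a2 a3,
        mul_nonneg a1 (show 0 ≤ 3 - x by linarith), mul_nonneg a2 (show 0 ≤ 3 - y by linarith),
        mul_nonneg a3 (show 0 ≤ 3 - z by linarith)])
    obtain ⟨w3, h5⟩ : ∃ w3 : ℂ, (1 - I * u3) * w3 = -((1 - I * t1) + (1 - I * u2) * w2) :=
      ⟨_, mul_div_cancel₀ _ (zero_ne u3).2⟩
    have h6 : (1 + I * u3) * conj w3 = -((1 + I * t1) + (1 + I * u2) * conj w2) := by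
      have := congrArg conj h5
      simp only [map_mul, map_add, map_sub, map_neg, map_one, conj_I, conj_ofReal] at this
      linear_combination this
    have k8 : ((t1 : ℂ) + u2 + u3) ^ 2 = 3 := by exact_mod_cast k6
    push_cast at he
    have hw3 : conj w3 * w3 = 1 := by
      refine mul_left_cancel₀ (mul_ne_zero (zero_ne u3).1 (zero_ne u3).2) ?_
      linear_combination ((1 + I * u3) * conj w3) * h5 -
        ((1 - I * t1) + (1 - I * u2) * w2) * h6 + he + (1 + I * u2) * (1 - I * u2) * hw2 +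
        ((u3 : ℂ) ^ 2 - t1 ^ 2 - u2 ^ 2) * I_sq
    refine fin u2 u3 w2 w3 k1 k2 k3 k4 hw2 hw3 ?_
    rw [zero_P3 hs _ _ _ hw2 hw3]
    linear_combination ((1 + I * t1) + (1 + I * u2) * conj w2) / 2 * h5 +
      ((1 - I * t1) + (1 - I * u2) * w2) / 2 * h6 - (1 / 2) * he -
      (1 + I * u2) * (1 - I * u2) * hw2 - (1 / 2) * k8 + ((t1 : ℂ) ^ 2 + u2 ^ 2) * I_sq

end Pool.Agent.Lib.MP_b525e0_co.SC
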