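import Pool.Agent.Lib.MP_b525e0_co.SC.LocF
import Pool.Agent.Lib.MP_b525e0_co.SC.Ineq
import Pool.Agent.Lib.MP_b525e0_co.SC.Zero

namespace Pool.Agent.Lib.MP_b525e0_co.SC

open Complex ComplexConjugate

variable {n : ℕ} {G : SimpleGraph (Fin n)}

theorem lstep_mono {a b x y : ℝ} (ha : 0 ≤ a) (hb : 0 ≤ b) (hx : a ≤ x) (hy : b ≤ y) :
    a ^ 2 + 6 * a * b + b ^ 2 ≤ x ^ 2 + 6 * x * y + y ^ 2 := by
  have hx0 : 0 ≤ x := ha.trans hx
  gcongr

theorem lstep_pair {a b : ℝ} (ha : 0 ≤ a) (hb : 0 ≤ b) (h : a + b < √3) :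
    a ^ 2 + 6 * a * b + b ^ 2 < 8 := by
  have h1 : (a + b) ^ 2 < √3 ^ 2 := pow_lt_pow_left₀ h (add_nonneg ha hb) two_ne_zero
  rw [Real.sq_sqrt (by norm_num)] at h1
  nlinarith [sq_nonneg (a - b)]

theorem lstep_eps {s t : ℝ} (h : s ^ 2 + 6 * s * t + t ^ 2 < 8) :
    ∃ u : ℝ, t < u ∧ s ^ 2 + 6 * s * u + u ^ 2 < 8 := by
  have hc : Continuous fun u : ℝ => s ^ 2 + 6 * s * u + u ^ 2 := by fun_prop
  have h1 : ∀ᶠ u in nhdsWithin t (Set.Ioi t), s ^ 2 + 6 * s * u + u ^ 2 < 8 :=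
    (hc.continuousAt.eventually_lt continuousAt_const h).filter_mono nhdsWithin_le_nhds
  obtain ⟨u, h2, h3⟩ := (h1.and self_mem_nhdsWithin).exists
  exact ⟨u, h3, h2⟩

theorem lstep_loc2 {v : Fin n} {r : G.Dart → ℝ} {a b : G.Dart}
    (h : ∀ e : G.Dart, e.fst = v → e = a ∨ e = b)
    (hr : r a ^ 2 + 6 * r a * r b + r b ^ 2 < 8) : Loc r v := by
  refine ⟨fun d1 d2 h1 h2 h12 => ?_, fun d1 d2 d3 h1 h2 h3 h12 h13 h23 => ?_⟩
  · rcases h d1 h1 with rfl | rfl <;> rcases h d2 h2 with rfl | rfl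
    · exact absurd rfl h12
    · exact hr
    · linarith
    · exact absurd rfl h12
  · exfalso
    rcases h d1 h1 with rfl | rfl <;> rcases h d2 h2 with rfl | rfl <;>
      rcases h d3 h3 with rfl | rfl <;> contradiction

theorem lstep_loc3 {v : Fin n} {r : G.Dart → ℝ} {a b c : G.Dart}
    (h : ∀ e : G.Dart, e.fst = v → e = a ∨ e = b ∨ e = c) (ha : 0 ≤ r a) (hb : 0 ≤ r b)
    (hc : 0 ≤ r c) (hr : r a + r b + r c < √3) : Loc r v := by
  refine ⟨fun d1 d2 h1 h2 h12 => ?_, fun d1 d2 d3 h1 h2 h3 h12 h13 h23 => ?_⟩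
  · rcases h d1 h1 with rfl | rfl | rfl <;> rcases h d2 h2 with rfl | rfl | rfl <;>
      first
        | exact absurd rfl h12
        | exact lstep_pair (by assumption) (by assumption) (by linarith)
  · rcases h d1 h1 with rfl | rfl | rfl <;> rcases h d2 h2 with rfl | rfl | rfl <;>
      rcases h d3 h3 with rfl | rfl | rfl <;>
      first
        | exact absurd rfl h12
        | exact absurd rfl h13
        | exact absurd rfl h23
        | linarith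

theorem lstep_zero2 {d d2 : G.Dart} (h2 : d2.fst = d.fst) (h12 : d ≠ d2)
    (h : ∀ e : G.Dart, e.fst = d.fst → e = d ∨ e = d2) {τ : G.Dart → ℝ} (hτ : ∀ e, 0 ≤ τ e)
    {a : Sp} (ha : ip a a = 1) {z1 : ℂ}
    (hz : 8 ≤ ‖z1‖ ^ 2 + 6 * ‖z1‖ * τ d2 + τ d2 ^ 2) : HasZero d τ a z1 := by
  classical
  obtain ⟨a2, z2, u2, n2, hP⟩ := P2_zero ha z1 (hτ d2) hz
  refine ⟨fun e => if e = d then a else a2, fun e => if e = d then z1 else z2, fun e => ?_,
    if_pos rfl, if_pos rfl, fun e he hne => ?_, ?_⟩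
  · by_cases q : e = d
    · simp only [if_pos q, ha]
    · simp only [if_neg q, u2]
  · obtain rfl := (h e he).resolve_left hne
    simp only [if_neg hne, n2]
  · rw [loc_two rfl h2 h12 h]
    simp only [if_pos, if_neg h12.symm, hP]

theorem lstep_zero3 {d d2 d3 : G.Dart} (h2 : d2.fst = d.fst) (h3 : d3.fst = d.fst) (h12 : d ≠ d2)
    (h13 : d ≠ d3) (h23 : d2 ≠ d3)
    (h : ∀ e : G.Dart, e.fst = d.fst → e = d ∨ e = d2 ∨ e = d3) {τ : G.Dart → ℝ}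
    (hτ : ∀ e, 0 ≤ τ e) {a : Sp} (ha : ip a a = 1) {z1 : ℂ}
    (hz : √3 ≤ ‖z1‖ + τ d2 + τ d3) : HasZero d τ a z1 := by
  classical
  obtain ⟨a2, z2, a3, z3, u2, u3, n2, n3, hP⟩ := P3_zero ha z1 (hτ d2) (hτ d3) hz
  refine ⟨fun e => if e = d then a else if e = d2 then a2 else a3,
    fun e => if e = d then z1 else if e = d2 then z2 else z3, fun e => ?_,
    if_pos rfl, if_pos rfl, fun e he hne => ?_, ?_⟩
  · by_cases q : e = d
    · simp only [if_pos q, ha]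
    · by_cases q2 : e = d2
      · simp only [if_neg q, if_pos q2, u2]
      · simp only [if_neg q, if_neg q2, u3]
  · rcases (h e he).resolve_left hne with rfl | rfl
    · simp only [if_neg hne, if_pos, n2]
    · simp only [if_neg hne, if_neg h23.symm, n3]
  · rw [loc_three rfl h2 h3 h12 h13 h23 h]
    simp only [if_pos, if_neg h12.symm, if_neg h13.symm, if_neg h23.symm, hP]

theorem loc_ne_zero {v : Fin n} (h3 : Sub3 G v) {r : G.Dart → ℝ} (hr : Loc r v)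
    {ψ : G.Dart → Sp} (hu : ∀ d, ip (ψ d) (ψ d) = 1) {z : G.Dart → ℂ}
    (hz : ∀ d : G.Dart, d.fst = v → ‖z d‖ ≤ r d) : loc v ψ z ≠ 0 := by
  by_cases h0 : ∀ d : G.Dart, d.fst ≠ v
  · rw [loc_zero h0]
    exact one_ne_zero
  obtain ⟨d1, h1⟩ : ∃ d : G.Dart, d.fst = v := by
    by_contra hc
    exact h0 fun d hd => hc ⟨d, hd⟩
  subst h1
  rcases shape3 h3 with h | ⟨d2, h2, h12, h⟩ | ⟨d2, d3, h2, h3', h12, h13, h23, h⟩
  · rw [loc_one rfl h, hu]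
    exact one_ne_zero
  · rw [loc_two rfl h2 h12 h]
    exact P2_ne_zero (hu _) (hu _) ((lstep_mono (norm_nonneg _) (norm_nonneg _) (hz d1 rfl)
      (hz d2 h2)).trans_lt (hr.1 d1 d2 rfl h2 h12))
  · rw [loc_three rfl h2 h3' h12 h13 h23 h]
    have := hr.2 d1 d2 d3 rfl h2 h3' h12 h13 h23
    exact P3_ne_zero (hu _) (hu _) (hu _) (by linarith [hz d1 rfl, hz d2 h2, hz d3 h3'])

theorem local_step {d : G.Dart} (h3 : Sub3 G d.fst) {τ : G.Dart → ℝ} (hτ : ∀ e, 0 ≤ τ e) :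
    (∀ a : Sp, ip a a = 1 → ∀ z1 : ℂ, HasZero d τ a z1) ∨
    ∃ y : ℝ, 0 ≤ y ∧ (∀ a : Sp, ip a a = 1 → ∀ z1 : ℂ, 1 ≤ y * ‖z1‖ → HasZero d τ a z1) ∧
      ∀ R : ℝ, y < R → ∃ r : G.Dart → ℝ, r d = 1 / R ∧
        (∀ e : G.Dart, e.fst = d.fst → e ≠ d → τ e < r e) ∧ Loc r d.fst := by
  classical
  have hinv : ∀ {ρ R : ℝ}, 0 < ρ → 1 / ρ < R → 0 < 1 / R ∧ 1 / R < ρ := fun {ρ R} h1 h2 =>
    have h3 : 0 < R := (one_div_pos.2 h1).trans h2
    ⟨one_div_pos.2 h3, (one_div_lt h3 h1).2 h2⟩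
  have hle : ∀ {ρ x : ℝ}, 0 < ρ → 1 ≤ 1 / ρ * x → ρ ≤ x := fun {ρ x} h1 h2 => by
    rwa [one_div_mul_eq_div, le_div_iff₀ h1, one_mul] at h2
  rcases shape3 h3 with h | ⟨d2, h2, h12, h⟩ | ⟨d2, d3, h2, h3', h12, h13, h23, h⟩
  · refine Or.inr ⟨0, le_rfl, fun a _ z1 hz => absurd hz (by norm_num), fun R _ =>
      ⟨fun _ => 1 / R, rfl, fun e he hne => absurd (h e he) hne, fun d1 d2 h1 h2 h12 => ?_,
        fun d1 d2 d3 h1 h2 _ h12 _ _ => ?_⟩⟩
    · exact absurd ((h d1 h1).trans (h d2 h2).symm) h12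
    · exact absurd ((h d1 h1).trans (h d2 h2).symm) h12
  · have t0 := hτ d2
    by_cases ht : 8 ≤ τ d2 ^ 2
    · refine Or.inl fun a ha z1 => lstep_zero2 h2 h12 h hτ ha ?_
      have := norm_nonneg z1
      nlinarith [mul_nonneg this t0]
    have ht' : τ d2 ^ 2 < 8 := not_le.1 ht
    obtain ⟨ρ, ρ0, hρ⟩ : ∃ ρ : ℝ, 0 < ρ ∧ ρ ^ 2 + 6 * ρ * τ d2 + τ d2 ^ 2 = 8 := by
      have e : √(8 * τ d2 ^ 2 + 8) ^ 2 = 8 * τ d2 ^ 2 + 8 := Real.sq_sqrt (by positivity)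
      refine ⟨√(8 * τ d2 ^ 2 + 8) - 3 * τ d2, sub_pos.2 (Real.lt_sqrt_of_sq_lt (by nlinarith)), ?_⟩
      nlinarith
    refine Or.inr ⟨1 / ρ, by positivity, fun a ha z1 hz => lstep_zero2 h2 h12 h hτ ha ?_,
      fun R hR => ?_⟩
    · rw [← hρ]
      exact lstep_mono ρ0.le t0 (hle ρ0 hz) le_rfl
    · obtain ⟨s0, s1⟩ := hinv ρ0 hR
      obtain ⟨u, u1, u2⟩ := lstep_eps (s := 1 / R) (t := τ d2)
        (by nlinarith [mul_nonneg (sub_pos.2 s1).le t0])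
      refine ⟨fun e => if e = d then 1 / R else u, if_pos rfl, fun e he hne => ?_,
        lstep_loc2 h ?_⟩
      · obtain rfl := (h e he).resolve_left hne
        simp only [if_neg hne, u1]
      · simp only [if_pos, if_neg h12.symm, u2]
  · have t2 := hτ d2
    have t3 := hτ d3
    by_cases ht : √3 ≤ τ d2 + τ d3
    · refine Or.inl fun a ha z1 => lstep_zero3 h2 h3' h12 h13 h23 h hτ ha ?_
      linarith [norm_nonneg z1]
    have ρ0 : 0 < √3 - τ d2 - τ d3 := by linarith [not_le.1 ht]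
    refine Or.inr ⟨1 / (√3 - τ d2 - τ d3), by positivity,
      fun a ha z1 hz => lstep_zero3 h2 h3' h12 h13 h23 h hτ ha ?_, fun R hR => ?_⟩
    · linarith [hle ρ0 hz]
    · obtain ⟨s0, s1⟩ := hinv ρ0 hR
      refine ⟨fun e => if e = d then 1 / R else τ e + (√3 - τ d2 - τ d3 - 1 / R) / 3, if_pos rfl,
        fun e _ hne => ?_, lstep_loc3 h ?_ ?_ ?_ ?_⟩
      · simp only [if_neg hne]
        linarith
      · simp only [if_pos]
        exact s0.le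
      · simp only [if_neg h12.symm]
        linarith
      · simp only [if_neg h13.symm]
        linarith
      · simp only [if_pos, if_neg h12.symm, if_neg h13.symm]
        linarith

end Pool.Agent.Lib.MP_b525e0_co.SC
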