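import Pool.Agent.Lib.MP_b525e0_co.SC.Defs

namespace Pool.Agent.Lib.MP_b525e0_co.SC

open Complex ComplexConjugate

variable {n : ℕ} {G : SimpleGraph (Fin n)}

theorem exists_leaf (hG : G.IsAcyclic) {U : Finset (Fin n)} (hU : U.Nonempty) :
    ∃ u ∈ U, ∀ d d' : G.Dart, d.fst = u → d'.fst = u → d.snd ∈ U → d'.snd ∈ U → d = d' := by
  classical
  have hne : Nonempty (U : Set (Fin n)) := ⟨⟨hU.choose, hU.choose_spec⟩⟩
  have hH := hG.induce (U : Set (Fin n))
  obtain ⟨u, v, p, hp, hmax⟩ :=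
    SimpleGraph.Walk.exists_isPath_forall_isPath_length_le_length (G.induce (U : Set (Fin n)))
  have key : ∀ w, (G.induce (U : Set (Fin n))).Adj u w → w = p.snd := by
    intro w hadj
    refine hH.eq_snd_of_adj_start hp hadj ?_
    by_contra hw
    have h1 := hmax _ _ (p.cons hadj.symm) (hp.cons hw)
    simp at h1
  refine ⟨u.1, u.2, fun d d' h1 h2 h3 h4 => ?_⟩
  have a1 : (G.induce (U : Set (Fin n))).Adj u ⟨d.snd, h3⟩ := by
    show G.Adj u.1 d.snd
    rw [← h1]; exact d.adj
  have a2 : (G.induce (U : Set (Fin n))).Adj u ⟨d'.snd, h4⟩ := by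
    show G.Adj u.1 d'.snd
    rw [← h2]; exact d'.adj
  have e : d.snd = d'.snd := congrArg Subtype.val ((key _ a1).trans (key _ a2).symm)
  exact SimpleGraph.Dart.ext _ _ (Prod.ext (h1.trans h2.symm) e)

theorem leaf_potential (hG : G.IsAcyclic) {A : Type} [AddCommGroup A] (f : G.Dart → A)
    (hf : ∀ d : G.Dart, f d.symm = -f d) (U : Finset (Fin n)) :
    ∃ x : Fin n → A, ∀ d : G.Dart, d.fst ∈ U → d.snd ∈ U → x d.snd - x d.fst = f d := by
  classical
  induction U using Finset.strongInduction with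
  | H U ih =>
    rcases U.eq_empty_or_nonempty with rfl | hU
    · exact ⟨0, fun d h => absurd h (Finset.notMem_empty _)⟩
    obtain ⟨u, hu, hleaf⟩ := exists_leaf hG hU
    obtain ⟨x, hx⟩ := ih (U.erase u) (Finset.erase_ssubset hu)
    by_cases hex : ∃ d0 : G.Dart, d0.fst = u ∧ d0.snd ∈ U
    · obtain ⟨d0, h0, h0'⟩ := hex
      have out : ∀ d : G.Dart, d.fst = u → d.snd ∈ U →
          Function.update x u (x d0.snd - f d0) d.snd -
            Function.update x u (x d0.snd - f d0) d.fst = f d := by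
        intro d h1 h2
        obtain rfl := hleaf d d0 h1 h0 h2 h0'
        have hne : d.snd ≠ u := by rw [← h1]; exact d.adj.ne'
        rw [Function.update_of_ne hne, h1, Function.update_self]
        abel
      refine ⟨Function.update x u (x d0.snd - f d0), fun d h1 h2 => ?_⟩
      by_cases a1 : d.fst = u
      · exact out d a1 h2
      by_cases a2 : d.snd = u
      · have h3 := out d.symm a2 h1
        rw [hf] at h3
        rw [← neg_sub]
        exact neg_eq_iff_eq_neg.2 h3
      · rw [Function.update_of_ne a1, Function.update_of_ne a2]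
        exact hx d (Finset.mem_erase.2 ⟨a1, h1⟩) (Finset.mem_erase.2 ⟨a2, h2⟩)
    · refine ⟨x, fun d h1 h2 => hx d (Finset.mem_erase.2 ⟨fun a => hex ⟨d, a, h2⟩, h1⟩)
        (Finset.mem_erase.2 ⟨fun a => hex ⟨d.symm, a, h1⟩, h2⟩)⟩

theorem exists_potential (hG : G.IsAcyclic) {A : Type} [AddCommGroup A] (f : G.Dart → A)
    (hf : ∀ d : G.Dart, f d.symm = -f d) :
    ∃ x : Fin n → A, ∀ d : G.Dart, x d.snd - x d.fst = f d := by
  obtain ⟨x, hx⟩ := leaf_potential hG f hf Finset.univ
  exact ⟨x, fun d => hx d (Finset.mem_univ _) (Finset.mem_univ _)⟩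

theorem exists_orth (G : SimpleGraph (Fin n)) : ∃ ψ : G.Dart → Sp,
    (∀ d, ip (ψ d) (ψ d) = 1) ∧ ∀ d : G.Dart, ip (ψ d) (ψ d.symm) = 0 := by
  refine ⟨fun d => if d.fst < d.snd then (1, 0) else (0, 1), fun d => ?_, fun d => ?_⟩
  · by_cases h : d.fst < d.snd <;> simp [h, ip]
  · have e1 : d.symm.fst = d.snd := rfl
    have e2 : d.symm.snd = d.fst := rfl
    simp only [e1, e2]
    rcases lt_or_gt_of_ne d.adj.ne with h | h
    · simp [h, h.not_gt, ip]
    · simp [h, h.not_gt, ip]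

end Pool.Agent.Lib.MP_b525e0_co.SC
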