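import Pool.Agent.Lib.MP_b525e0_co.SC.Step
import Pool.Agent.Lib.MP_b525e0_co.SC.LStep
import Pool.Agent.Lib.MP_b525e0_co.SC.Leaf

namespace Pool.Agent.Lib.MP_b525e0_co.SC

open Complex ComplexConjugate

variable {n : ℕ} {G : SimpleGraph (Fin n)}

theorem Iso_in {U : Finset (Fin n)} {u : Fin n} (hno : ∀ e : G.Dart, e.fst = u → e.snd ∉ U)
    (e : G.Dart) (h1 : e.fst ∈ insert u U) (h2 : e.snd ∈ insert u U) :
    e.fst ∈ U ∧ e.snd ∈ U := by
  rw [Finset.mem_insert] at h1 h2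
  rcases h1 with h1 | h1 <;> rcases h2 with h2 | h2
  · exact absurd (h1.trans h2.symm) e.fst_ne_snd
  · exact absurd h2 (hno e h1)
  · exact absurd h1 (hno e.symm h2)
  · exact ⟨h1, h2⟩

theorem Iso_edge (U : Finset (Fin n)) (e : G.Dart) : e.edge ∈ U.sym2 ↔ e.fst ∈ U ∧ e.snd ∈ U :=
  Finset.mk_mem_sym2_iff

theorem Iso_factor {U : Finset (Fin n)} {u : Fin n} (hu : u ∉ U)
    (hno : ∀ e : G.Dart, e.fst = u → e.snd ∉ U) (ψ : G.Dart → Sp) (z : G.Dart → ℂ) :
    Phi (insert u U) (insert u U).sym2 ψ z = loc u ψ z * Phi U U.sym2 ψ z := by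
  rw [← Phi_insert_vertex ψ z hu fun d hd h => hno d hd ((Iso_edge U d).1 h).2]
  refine Phi_congr (fun d _ => ?_) (fun _ _ => rfl) (fun _ _ _ => rfl) (fun _ _ _ => rfl)
  rw [Iso_edge, Iso_edge]
  exact ⟨fun h => Iso_in hno d h.1 h.2,
    fun h => ⟨Finset.mem_insert_of_mem h.1, Finset.mem_insert_of_mem h.2⟩⟩

theorem Iso_not_zero {U : Finset (Fin n)} {u : Fin n} (hu : u ∉ U)
    (hno : ∀ e : G.Dart, e.fst = u → e.snd ∉ U) {τ : G.Dart → ℝ} (hτ : ∀ e, 0 ≤ τ e)
    (h : NoZero (insert u U) τ) {d : G.Dart} (hd : d.fst = u) {a : Sp} {z1 : ℂ}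
    (hz : ‖z1‖ ≤ τ d) : ¬ HasZero d τ a z1 := by
  rintro ⟨ψ1, z, h1, -, h2, h3, h4⟩
  obtain ⟨ψ0, g1, g2⟩ := exists_orth G
  refine h (fun e => if e.fst = u then ψ1 e else ψ0 e) (fun e => if e.fst = u then z e else 0)
    (fun e => ?_) (fun e a b => ?_) (fun e _ _ => ?_) ?_
  · split_ifs
    · exact h1 e
    · exact g1 e
  · obtain ⟨a', b'⟩ := Iso_in hno e a b
    have n1 : e.fst ≠ u := fun h => hu (h ▸ a')
    have n2 : e.symm.fst ≠ u := fun h => hu (h ▸ b')
    simp only [if_neg n1, if_neg n2]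
    exact g2 e
  · split_ifs with he
    · by_cases hed : e = d
      · rw [hed, h2]
        exact hz
      · exact h3 e (he.trans hd.symm) hed
    · rw [norm_zero]
      exact hτ e
  · rw [Iso_factor hu hno, loc_congr (ψ' := ψ1) (z' := z) (fun e he => if_pos he)
      (fun e he => if_pos he), ← hd, h4, zero_mul]

theorem Iso_loc {r r' : G.Dart → ℝ} {v : Fin n} (h : Loc r v)
    (e : ∀ d : G.Dart, d.fst = v → r' d = r d) : Loc r' v :=
  ⟨fun d1 d2 a b c => by rw [e d1 a, e d2 b]; exact h.1 d1 d2 a b c,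
    fun d1 d2 d3 a b c x y z => by rw [e d1 a, e d2 b, e d3 c]; exact h.2 d1 d2 d3 a b c x y z⟩

theorem step_isolated {U : Finset (Fin n)} {u : Fin n} (h3 : Sub3 G u) (hu : u ∉ U)
    (hno : ∀ e : G.Dart, e.fst = u → e.snd ∉ U) {τ : G.Dart → ℝ} (hτ : ∀ e, 0 ≤ τ e)
    (h : NoZero (insert u U) τ) :
    NoZero U τ ∧ ∃ r : G.Dart → ℝ, (∀ e : G.Dart, e.fst = u → τ e < r e) ∧ Loc r u := by
  refine ⟨fun ψ z h1 h2 h3 h0 => ?_, ?_⟩
  · refine h ψ (fun e => if e.fst = u then 0 else z e) h1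
      (fun e a b => h2 e (Iso_in hno e a b).1 (Iso_in hno e a b).2) (fun e a b => ?_) ?_
    · split_ifs with he
      · rw [norm_zero]
        exact hτ e
      · exact h3 e ((Finset.mem_insert.1 a).resolve_left he)
          fun c => b (Finset.mem_insert_of_mem c)
    · rw [Iso_factor hu hno, Phi_congr (Γ' := U.sym2) (ψ' := ψ) (z' := z) (fun _ _ => Iff.rfl)
        (fun _ _ => rfl) (fun _ _ _ => rfl)
        (fun e he _ => if_neg fun c : e.fst = u => hu (c ▸ he)), h0, mul_zero]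
  · by_cases hex : ∃ d : G.Dart, d.fst = u
    · obtain ⟨d, hd⟩ := hex
      have ha : ip (1, 0) (1, 0) = 1 := by simp [ip]
      rcases local_step (d := d) (hd.symm ▸ h3) hτ with h4 | ⟨y, hy, h4, h5⟩
      · exact absurd (h4 _ ha 0) (Iso_not_zero hu hno hτ h hd (by rw [norm_zero]; exact hτ d))
      · have hn : ‖((τ d : ℝ) : ℂ)‖ = τ d := by
          rw [Complex.norm_real, Real.norm_of_nonneg (hτ d)]
        have h6 : y * τ d < 1 := by
          by_contra hc
          exact Iso_not_zero hu hno hτ h hd hn.le (h4 _ ha _ (by rw [hn]; exact not_lt.1 hc))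
        obtain ⟨R, hR, hR'⟩ : ∃ R, y < R ∧ τ d < 1 / R := by
          rcases (hτ d).eq_or_lt with h0 | h0
          · exact ⟨y + 1, by linarith, by rw [← h0]; positivity⟩
          · obtain ⟨R, a, b⟩ := exists_between ((lt_div_iff₀ h0).2 h6)
            exact ⟨R, a, (lt_one_div h0 (hy.trans_lt a)).2 b⟩
        obtain ⟨r, a, b, c⟩ := h5 R hR
        refine ⟨r, fun e he => ?_, hd ▸ c⟩
        by_cases hed : e = d
        · rw [hed, a]
          exact hR'
        · exact b e (he.trans hd.symm) hed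
    · exact ⟨τ, fun e he => absurd ⟨e, he⟩ hex, fun d _ hd => absurd ⟨d, hd⟩ hex,
        fun d _ _ hd => absurd ⟨d, hd⟩ hex⟩

theorem glue_isolated {U : Finset (Fin n)} {u : Fin n} (hu : u ∉ U)
    (hno : ∀ e : G.Dart, e.fst = u → e.snd ∉ U) {τ r : G.Dart → ℝ} (h : Cert U τ)
    (h1 : ∀ e : G.Dart, e.fst = u → τ e < r e) (h2 : Loc r u) : Cert (insert u U) τ := by
  obtain ⟨s, g1, g2, g3⟩ := h
  refine ⟨fun e => if e.fst = u then r e else s e, fun e a b => ?_, fun e a b => ?_,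
    fun v hv => ?_⟩
  · obtain ⟨a', b'⟩ := Iso_in hno e a b
    have n1 : e.fst ≠ u := fun h => hu (h ▸ a')
    have n2 : e.symm.fst ≠ u := fun h => hu (h ▸ b')
    simp only [if_neg n1, if_neg n2]
    exact g1 e a' b'
  · dsimp only
    split_ifs with he
    · exact h1 e he
    · exact g2 e ((Finset.mem_insert.1 a).resolve_left he) fun c => b (Finset.mem_insert_of_mem c)
  · rcases Finset.mem_insert.1 hv with hv | hv
    · rw [hv]
      exact Iso_loc h2 fun d hd => if_pos hd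
    · exact Iso_loc (g3 v hv) fun d hd => if_neg fun c : d.fst = u => hu (c ▸ hd ▸ hv)

theorem glue_pendant [DecidableEq G.Dart] {U : Finset (Fin n)} {d : G.Dart} (hu : d.fst ∉ U)
    (hd : d.snd ∈ U) (huniq : ∀ e : G.Dart, e.fst = d.fst → e.snd ∈ U → e = d)
    {τ : G.Dart → ℝ} {y : ℝ} (hy : 0 ≤ y) (h : Cert U (Function.update τ d.symm y))
    (h1 : ∀ R : ℝ, y < R → ∃ r : G.Dart → ℝ, r d = 1 / R ∧
      (∀ e : G.Dart, e.fst = d.fst → e ≠ d → τ e < r e) ∧ Loc r d.fst) :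
    Cert (insert d.fst U) τ := by
  obtain ⟨s, g1, g2, g3⟩ := h
  have hR : y < s d.symm := by
    have := g2 d.symm hd hu
    rwa [Function.update_self] at this
  have hR0 : 0 < s d.symm := hy.trans_lt hR
  obtain ⟨r, a1, a2, a3⟩ := h1 _ hR
  have n0 : d.symm.fst ≠ d.fst := d.fst_ne_snd.symm
  refine ⟨fun e => if e.fst = d.fst then r e else s e, fun e a b => ?_, fun e a b => ?_,
    fun v hv => ?_⟩
  · rw [Finset.mem_insert] at a b
    rcases a with a | a <;> rcases b with b | b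
    · exact absurd (a.trans b.symm) e.fst_ne_snd
    · rw [huniq e a b]
      simp only [if_true, if_neg n0, a1]
      exact ⟨by positivity, one_div_mul_cancel hR0.ne'⟩
    · have he : e = d.symm := by rw [← huniq e.symm b a, SimpleGraph.Dart.symm_symm]
      rw [he]
      simp only [SimpleGraph.Dart.symm_symm, if_true, if_neg n0, a1]
      exact ⟨hR0, mul_one_div_cancel hR0.ne'⟩
    · have n1 : e.fst ≠ d.fst := fun h => hu (h ▸ a)
      have n2 : e.symm.fst ≠ d.fst := fun h => hu (h ▸ b)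
      simp only [if_neg n1, if_neg n2]
      exact g1 e a b
  · dsimp only
    split_ifs with he
    · exact a2 e he fun c => b (by rw [c]; exact Finset.mem_insert_of_mem hd)
    · have := g2 e ((Finset.mem_insert.1 a).resolve_left he) fun c => b (Finset.mem_insert_of_mem c)
      rwa [Function.update_of_ne fun c : e = d.symm => b (c ▸ Finset.mem_insert_self _ _)] at this
  · rcases Finset.mem_insert.1 hv with hv | hv
    · rw [hv]
      exact Iso_loc a3 fun e he => if_pos he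
    · exact Iso_loc (g3 v hv) fun e he => if_neg fun c : e.fst = d.fst => hu (c ▸ he ▸ hv)

end Pool.Agent.Lib.MP_b525e0_co.SC
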