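import Pool.Agent.Lib.MP_b525e0_co.SC.Step
import Pool.Agent.Lib.MP_b525e0_co.SC.Spin
import Pool.Agent.Lib.MP_b525e0_co.SC.LStep
import Pool.Agent.Lib.MP_b525e0_co.SC.Leaf

namespace Pool.Agent.Lib.MP_b525e0_co.SC

open Complex ComplexConjugate

variable {n : ℕ} {G : SimpleGraph (Fin n)}

theorem Pend_mem {U : Finset (Fin n)} {e : G.Dart} :
    e.edge ∈ U.sym2 ↔ e.fst ∈ U ∧ e.snd ∈ U := by
  change s(e.fst, e.snd) ∈ U.sym2 ↔ _
  exact Finset.mk_mem_sym2_iff

theorem Phi_pendant [DecidableEq G.Dart] {U : Finset (Fin n)} {d : G.Dart} (hu : d.fst ∉ U)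
    (hd : d.snd ∈ U) (huniq : ∀ e : G.Dart, e.fst = d.fst → e.snd ∈ U → e = d)
    {ψ : G.Dart → Sp} (hb : ip (ψ d.symm) (ψ d.symm) = 1) (hJ : ψ d = JJ (ψ d.symm))
    {z : G.Dart → ℂ} {α β γ δ : ℂ} (h1 : ∀ x, loc d.fst ψ (Function.update z d x) = α + β * x)
    (h2 : ∀ y, Phi U U.sym2 ψ (Function.update z d.symm y) = γ + δ * y) :
    Phi (insert d.fst U) (insert d.fst U).sym2 ψ z = α * γ + β * δ := by
  have hc : Phi (insert d.fst U) (insert d.fst U).sym2 ψ z =
      Phi (insert d.fst U) (insert d.edge U.sym2) ψ z := by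
    refine Phi_congr ?_ (fun _ _ => rfl) (fun _ _ _ => rfl) (fun _ _ _ => rfl)
    intro e he
    rw [Pend_mem, Finset.mem_insert (a := e.edge), Pend_mem]
    constructor
    · rintro ⟨ha, hb'⟩
      rcases Finset.mem_insert.1 ha with ha | ha
      · rcases Finset.mem_insert.1 hb' with hb' | hb'
        · exact absurd (ha.trans hb'.symm) e.adj.ne
        · left; rw [huniq e ha hb']
      · rcases Finset.mem_insert.1 hb' with hb' | hb'
        · left; rw [← huniq e.symm hb' ha, SimpleGraph.Dart.edge_symm]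
        · exact Or.inr ⟨ha, hb'⟩
    · rintro (h | ⟨ha, hb'⟩)
      · rcases (SimpleGraph.dart_edge_eq_iff e d).1 h with rfl | rfl
        · exact ⟨he, Finset.mem_insert_of_mem hd⟩
        · exact ⟨he, Finset.mem_insert_self _ _⟩
      · exact ⟨Finset.mem_insert_of_mem ha, Finset.mem_insert_of_mem hb'⟩
  have hne : d.edge ∉ U.sym2 := fun h => hu (Pend_mem.1 h).1
  have hv : ∀ x y : ℂ, Phi (insert d.fst U) U.sym2 ψ
      (Function.update (Function.update z d x) d.symm y) = (α + β * x) * (γ + δ * y) := by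
    intro x y
    rw [Phi_insert_vertex ψ _ hu (fun e he h => hu (he ▸ (Pend_mem.1 h).1)), ← h1, ← h2]
    have e1 : loc d.fst ψ (Function.update (Function.update z d x) d.symm y) =
        loc d.fst ψ (Function.update z d x) := by
      refine loc_congr (fun _ _ => rfl) fun e he => ?_
      refine Function.update_of_ne ?_ _ _
      rintro rfl
      exact d.adj.ne he.symm
    have e2 : Phi U U.sym2 ψ (Function.update (Function.update z d x) d.symm y) =
        Phi U U.sym2 ψ (Function.update z d.symm y) := by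
      refine Phi_congr (fun _ _ => Iff.rfl) (fun _ _ => rfl) (fun _ _ _ => rfl) fun e he _ => ?_
      have hed : e ≠ d := by
        rintro rfl
        exact hu he
      by_cases h : e = d.symm
      · rw [h, Function.update_self, Function.update_self]
      · rw [Function.update_of_ne h, Function.update_of_ne h, Function.update_of_ne hed]
    rw [e1, e2]
  have h3 := Phi_insert_edge (insert d.fst U) ψ z hne
  rw [hv, hv] at h3
  have w1 : ww ψ d = -I := by
    have : om (ψ d) (ψ d.symm) = -1 := by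
      rw [hJ]
      simp only [ip, om, JJ] at hb ⊢
      linear_combination -hb
    rw [ww, this]; ring
  have w2 : ww ψ d.symm = I := by
    have : om (ψ d.symm) (ψ d.symm.symm) = 1 := by
      rw [SimpleGraph.Dart.symm_symm, hJ]
      simp only [ip, om, JJ] at hb ⊢
      linear_combination hb
    rw [ww, this]; ring
  rw [w1, w2] at h3
  rw [hc]
  linear_combination (1 / 2 : ℂ) * h3 - β * δ * I_mul_I

theorem Pend_glue [DecidableEq G.Dart] {U : Finset (Fin n)} {d : G.Dart}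
    (hu : d.fst ∉ U) (hd : d.snd ∈ U) (huniq : ∀ e : G.Dart, e.fst = d.fst → e.snd ∈ U → e = d)
    {τ : G.Dart → ℝ} (h : NoZero (insert d.fst U) τ)
    {ψ : G.Dart → Sp} {z : G.Dart → ℂ} (hψ : ∀ e, ip (ψ e) (ψ e) = 1)
    (ho : ∀ e : G.Dart, e.fst ∈ U → e.snd ∈ U → ip (ψ e) (ψ e.symm) = 0)
    (hz : ∀ e : G.Dart, e.fst ∈ U → e.snd ∉ U → e ≠ d.symm → ‖z e‖ ≤ τ e) {γ δ : ℂ}
    (h2 : ∀ y, Phi U U.sym2 ψ (Function.update z d.symm y) = γ + δ * y)
    {ψ1 : G.Dart → Sp} {z1 : G.Dart → ℂ} (hψ1 : ∀ e, ip (ψ1 e) (ψ1 e) = 1)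
    (hJ : ψ1 d = JJ (ψ d.symm)) (hz1 : ∀ e : G.Dart, e.fst = d.fst → e ≠ d → ‖z1 e‖ ≤ τ e)
    {α β : ℂ} (h1 : ∀ x, loc d.fst ψ1 (Function.update z1 d x) = α + β * x) :
    α * γ + β * δ ≠ 0 := by
  have hU : ∀ e : G.Dart, e.fst ∈ U → e.fst ≠ d.fst := fun e he h' => hu (h' ▸ he)
  have hs : d.symm.fst ≠ d.fst := hU d.symm hd
  obtain ⟨ψ', hψ'⟩ : ∃ ψ' : G.Dart → Sp, ψ' = fun e => if e.fst = d.fst then ψ1 e else ψ e :=
    ⟨_, rfl⟩
  obtain ⟨z', hz'⟩ : ∃ z' : G.Dart → ℂ, z' = fun e => if e.fst = d.fst then z1 e else z e :=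
    ⟨_, rfl⟩
  have p1 : ∀ e : G.Dart, e.fst = d.fst → ψ' e = ψ1 e := fun e he => by rw [hψ']; exact if_pos he
  have p2 : ∀ e : G.Dart, e.fst ≠ d.fst → ψ' e = ψ e := fun e he => by rw [hψ']; exact if_neg he
  have q1 : ∀ e : G.Dart, e.fst = d.fst → z' e = z1 e := fun e he => by rw [hz']; exact if_pos he
  have q2 : ∀ e : G.Dart, e.fst ≠ d.fst → z' e = z e := fun e he => by rw [hz']; exact if_neg he
  have hJ' : ψ' d = JJ (ψ' d.symm) := by rw [p1 d rfl, p2 _ hs, hJ]
  have key := Phi_pendant hu hd huniq (ψ := ψ') (z := z') (α := α) (β := β) (γ := γ) (δ := δ)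
    (by rw [p2 _ hs]; exact hψ _) hJ' ?_ ?_
  · rw [← key]
    refine h ψ' z' ?_ ?_ ?_
    · intro e
      by_cases he : e.fst = d.fst
      · rw [p1 e he]; exact hψ1 e
      · rw [p2 e he]; exact hψ e
    · intro e ha hb
      rcases Finset.mem_insert.1 ha with ha | ha
      · rcases Finset.mem_insert.1 hb with hb | hb
        · exact absurd (ha.trans hb.symm) e.adj.ne
        · rw [huniq e ha hb, hJ']; exact (ip_JJ _).2.1
      · rcases Finset.mem_insert.1 hb with hb | hb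
        · have h3 : e.symm = d := huniq e.symm hb ha
          have h4 : e = d.symm := by rw [← h3, SimpleGraph.Dart.symm_symm]
          rw [h3, h4, hJ']; exact (ip_JJ _).1
        · rw [p2 e (hU e ha), p2 e.symm (hU e.symm hb)]; exact ho e ha hb
    · intro e ha hb
      rcases Finset.mem_insert.1 ha with ha | ha
      · rw [q1 e ha]
        refine hz1 e ha ?_
        rintro rfl
        exact hb (Finset.mem_insert_of_mem hd)
      · rw [q2 e (hU e ha)]
        refine hz e ha (fun h' => hb (Finset.mem_insert_of_mem h')) ?_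
        rintro rfl
        exact hb (Finset.mem_insert_self _ _)
  · intro x
    rw [← h1]
    refine loc_congr p1 fun e he => ?_
    by_cases h' : e = d
    · rw [h', Function.update_self, Function.update_self]
    · rw [Function.update_of_ne h', Function.update_of_ne h', q1 e he]
  · intro y
    rw [← h2]
    refine Phi_congr (fun _ _ => Iff.rfl) (fun e he => p2 e (hU e he))
      (fun e _ he => p2 e.symm (hU e.symm (Pend_mem.1 he).2)) fun e he _ => ?_
    by_cases h' : e = d.symm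
    · rw [h', Function.update_self, Function.update_self]
    · rw [Function.update_of_ne h', Function.update_of_ne h', q2 e (hU e he)]

theorem step_pendant [DecidableEq G.Dart] {U : Finset (Fin n)} {d : G.Dart} (h3 : Sub3 G d.fst)
    (hu : d.fst ∉ U) (hd : d.snd ∈ U) (huniq : ∀ e : G.Dart, e.fst = d.fst → e.snd ∈ U → e = d)
    {τ : G.Dart → ℝ} (hτ : ∀ e, 0 ≤ τ e) (h : NoZero (insert d.fst U) τ) :
    ∃ y : ℝ, 0 ≤ y ∧ NoZero U (Function.update τ d.symm y) ∧
      ∀ R : ℝ, y < R → ∃ r : G.Dart → ℝ, r d = 1 / R ∧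
        (∀ e : G.Dart, e.fst = d.fst → e ≠ d → τ e < r e) ∧ Loc r d.fst := by
  have key : ∀ (ψ : G.Dart → Sp) (z : G.Dart → ℂ), (∀ e, ip (ψ e) (ψ e) = 1) →
      (∀ e : G.Dart, e.fst ∈ U → e.snd ∈ U → ip (ψ e) (ψ e.symm) = 0) →
      (∀ e : G.Dart, e.fst ∈ U → e.snd ∉ U → e ≠ d.symm → ‖z e‖ ≤ τ e) → ∀ γ δ : ℂ,
      (∀ y, Phi U U.sym2 ψ (Function.update z d.symm y) = γ + δ * y) →
      γ ≠ 0 ∧ ¬ HasZero d τ (JJ (ψ d.symm)) (δ / γ) := by
    intro ψ z hψ ho hz γ δ h2
    have hJu : ip (JJ (ψ d.symm)) (JJ (ψ d.symm)) = 1 := by rw [(ip_JJ _).2.2, hψ]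
    have hγ : γ ≠ 0 := by
      have := Pend_glue hu hd huniq h hψ ho hz h2 (ψ1 := fun _ => JJ (ψ d.symm))
        (z1 := fun _ => 0) (fun _ => hJu) rfl (fun e _ _ => by simpa using hτ e)
        (α := loc d.fst (fun _ : G.Dart => JJ (ψ d.symm)) (fun _ => 0)) (β := 0)
        (fun x => by rw [zero_mul, add_zero]; exact loc_flat _ _ _ _)
      rintro rfl
      simp at this
    refine ⟨hγ, ?_⟩
    rintro ⟨ψ1, z1, a1, a2, a3, a4, a5⟩
    obtain ⟨α, β, h1⟩ := loc_affine d.fst ψ1 z1 d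
    have h4 := h1 (z1 d)
    rw [Function.update_eq_self, a5, a3] at h4
    refine Pend_glue hu hd huniq h hψ ho hz h2 a1 a2 a4 h1 ?_
    have h5 : δ / γ * γ = δ := div_mul_cancel₀ δ hγ
    linear_combination (-γ) * h4 - β * h5
  rcases local_step h3 hτ with hl | ⟨y, hy, hl, hr⟩
  · exfalso
    obtain ⟨ψ, hψ, ho⟩ := exists_orth G
    obtain ⟨γ, δ, h2⟩ := Phi_affine U U.sym2 ψ (fun _ => 0) d.symm
    exact (key ψ _ hψ (fun e _ _ => ho e) (fun e _ _ _ => by simpa using hτ e) γ δ h2).2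
      (hl _ (by rw [(ip_JJ _).2.2, hψ]) _)
  · refine ⟨y, hy, ?_, hr⟩
    intro ψ z hψ ho hz h0
    obtain ⟨γ, δ, h2⟩ := Phi_affine U U.sym2 ψ z d.symm
    obtain ⟨hγ, hn⟩ := key ψ z hψ ho (fun e a b c => by
      have := hz e a b
      rwa [Function.update_of_ne c] at this) γ δ h2
    refine hn (hl _ (by rw [(ip_JJ _).2.2, hψ]) _ ?_)
    have h4 := h2 (z d.symm)
    rw [Function.update_eq_self, h0] at h4
    have h5 := hz d.symm hd hu
    rw [Function.update_self] at h5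
    have h6 : z d.symm * (δ / γ) = -1 := by
      field_simp
      linear_combination -h4
    have h7 : ‖z d.symm‖ * ‖δ / γ‖ = 1 := by rw [← norm_mul, h6]; simp
    rw [← h7]
    exact mul_le_mul_of_nonneg_right h5 (norm_nonneg _)

end Pool.Agent.Lib.MP_b525e0_co.SC
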