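import Pool.Agent.Lib.MP_b525e0_co.SC.Red
import Pool.Agent.Lib.MP_b525e0_co.SC.Asano
import Pool.Agent.Lib.MP_b525e0_co.SC.Pend
import Pool.Agent.Lib.MP_b525e0_co.SC.Iso

namespace Pool.Agent.Lib.MP_b525e0_co.SC

open Complex ComplexConjugate

variable {n : ℕ} {G : SimpleGraph (Fin n)}

theorem cert_of_noZero (hG : G.IsAcyclic) (h3 : ∀ v, Sub3 G v) (U : Finset (Fin n)) :
    ∀ τ : G.Dart → ℝ, (∀ e, 0 ≤ τ e) → NoZero U τ → Cert U τ := by
  classical
  induction U using Finset.strongInduction with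
  | H U ih =>
    intro τ hτ h
    rcases U.eq_empty_or_nonempty with rfl | hU
    · exact ⟨τ, by simp, by simp, by simp⟩
    obtain ⟨u, hu, huniq⟩ := exists_leaf hG hU
    have hins : insert u (U.erase u) = U := Finset.insert_erase hu
    have hlt : U.erase u ⊂ U := Finset.erase_ssubset hu
    have hnot : u ∉ U.erase u := Finset.notMem_erase u U
    by_cases hno : ∀ e : G.Dart, e.fst = u → e.snd ∉ U.erase u
    · rw [← hins] at h ⊢
      obtain ⟨h1, r, h2, h4⟩ := step_isolated (h3 u) hnot hno hτ h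
      exact glue_isolated hnot hno (ih _ hlt τ hτ h1) h2 h4
    · simp only [not_forall, not_not] at hno
      obtain ⟨d, rfl, hd⟩ := hno
      have hun : ∀ e : G.Dart, e.fst = d.fst → e.snd ∈ U.erase d.fst → e = d :=
        fun e he he' => huniq e d he rfl (Finset.mem_of_mem_erase he') (Finset.mem_of_mem_erase hd)
      rw [← hins] at h ⊢
      obtain ⟨y, hy, h1, h2⟩ := step_pendant (h3 d.fst) hnot hd hun hτ h
      refine glue_pendant hnot hd hun hy (ih _ hlt _ ?_ h1) h2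
      intro e
      by_cases he : e = d.symm
      · rw [he, Function.update_self]; exact hy
      · rw [Function.update_of_ne he]; exact hτ e

theorem noZero_of_zeroFree (hG : G.IsAcyclic) (h : ZeroFree G) :
    NoZero (G := G) Finset.univ (fun _ => 0) := by
  intro ψ z hu ho _
  have ho' : ∀ e : G.Dart, ip (ψ e) (ψ e.symm) = 0 :=
    fun e => ho e (Finset.mem_univ _) (Finset.mem_univ _)
  obtain ⟨x, hx⟩ := exists_potential hG (fun d => bloch (ψ d))
    (fun d => bloch_orth (hu d) (hu d.symm) (ho' d))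
  obtain ⟨hne, ψ', hψ', hS⟩ := spin_of_bloch hu hx
  obtain ⟨Δ, hΔ⟩ := exists_orientation G
  have h1 := amp_eq hΔ (spin_unit hψ') (spin_orth hψ') z
  have h2 : (fun d => toS (ψ' d)) = ψ := funext hS
  rw [h2] at h1
  rw [Finset.sym2_univ, h1]
  exact mul_ne_zero (pow_ne_zero _ two_ne_zero) (h x hne ψ' Δ hψ' hΔ)

theorem zeroFree_of_cert (h3 : ∀ v, Sub3 G v) {r : G.Dart → ℝ}
    (hr : ∀ e : G.Dart, 0 < r e ∧ r e * r e.symm = 1) (hL : ∀ v, Loc r v) : ZeroFree G := by
  intro x _ ψ Δ hψ hΔ h0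
  have h1 := amp_eq hΔ (spin_unit hψ) (spin_orth hψ) (fun _ => 0)
  rw [h0, mul_zero] at h1
  exact asano (spin_unit hψ) (spin_orth hψ) (fun d => (hr d).1.le) (fun d => (hr d).2.ge)
    (fun v z hz => loc_ne_zero (h3 v) (hL v) (spin_unit hψ) hz) Finset.univ (fun _ => 0)
    (fun d => by simpa using (hr d).1.le) h1

theorem zeroFree_iff (hG : G.IsAcyclic) (h3 : ∀ v, Sub3 G v) :
    ZeroFree G ↔ ∃ r : Fin n → Fin n → ℝ,
      (∀ i j, G.Adj i j → 0 < r i j ∧ r i j * r j i = 1) ∧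
      (∀ v a b, G.Adj v a → G.Adj v b → a ≠ b → r v a ^ 2 + 6 * r v a * r v b + r v b ^ 2 < 8) ∧
      ∀ v a b c, G.Adj v a → G.Adj v b → G.Adj v c → a ≠ b → a ≠ c → b ≠ c →
        r v a + r v b + r v c < √3 := by
  classical
  constructor
  · intro h
    obtain ⟨r, h1, _, h2⟩ := cert_of_noZero hG h3 Finset.univ (fun _ => 0) (fun _ => le_rfl)
      (noZero_of_zeroFree hG h)
    have hne : ∀ {v a b : Fin n} (ha : G.Adj v a) (hb : G.Adj v b), a ≠ b →
        (⟨(v, a), ha⟩ : G.Dart) ≠ ⟨(v, b), hb⟩ := by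
      intro v a b ha hb hab h
      exact hab (congrArg (fun d : G.Dart => d.snd) h)
    refine ⟨fun i j => if h : G.Adj i j then r ⟨(i, j), h⟩ else 0, ?_, ?_, ?_⟩
    · intro i j hij
      simp only [dif_pos hij, dif_pos hij.symm]
      exact h1 ⟨(i, j), hij⟩ (Finset.mem_univ _) (Finset.mem_univ _)
    · intro v a b ha hb hab
      simp only [dif_pos ha, dif_pos hb]
      exact (h2 v (Finset.mem_univ _)).1 _ _ rfl rfl (hne ha hb hab)
    · intro v a b c ha hb hc hab hac hbc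
      simp only [dif_pos ha, dif_pos hb, dif_pos hc]
      exact (h2 v (Finset.mem_univ _)).2 _ _ _ rfl rfl rfl (hne ha hb hab) (hne ha hc hac)
        (hne hb hc hbc)
  · rintro ⟨r, h1, h2, h4⟩
    have hne : ∀ {d e : G.Dart}, d.fst = e.fst → d ≠ e → d.snd ≠ e.snd := by
      intro d e h hde h'
      exact hde (SimpleGraph.Dart.ext _ _ (Prod.ext h h'))
    refine zeroFree_of_cert h3 (r := fun d => r d.fst d.snd) (fun e => h1 _ _ e.adj) ?_
    intro v
    constructor
    · rintro d1 d2 rfl e2 h12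
      have := h2 d1.fst d1.snd d2.snd d1.adj (e2 ▸ d2.adj) (hne e2.symm h12)
      simpa only [e2] using this
    · rintro d1 d2 d3 rfl e2 e3 h12 h13 h23
      have := h4 d1.fst d1.snd d2.snd d3.snd d1.adj (e2 ▸ d2.adj) (e3 ▸ d3.adj)
        (hne e2.symm h12) (hne e3.symm h13) (hne (e2.trans e3.symm) h23)
      simpa only [e2, e3] using this

end Pool.Agent.Lib.MP_b525e0_co.SC
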