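import Mathlib

/-!
The definitions of the problem: Pauli matrices, spinors of the edge directions, the amplitude.
-/

namespace Pool.Agent.Lib.MP_b525e0_co.SC

open Complex Matrix

/-- The matrix `u · σ = u₁ σ₁ + u₂ σ₂ + u₃ σ₃` built from the three Pauli matrices. -/
noncomputable def pauliDot (u : EuclideanSpace ℝ (Fin 3)) : Matrix (Fin 2) (Fin 2) ℂ :=
  (u 0 : ℂ) • !![0, 1; 1, 0] + (u 1 : ℂ) • !![0, -I; I, 0] + (u 2 : ℂ) • !![1, 0; 0, -1]

/-- The unit vector `(q - p) / ‖q - p‖` pointing from `p` to `q`. -/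
noncomputable def dir (p q : EuclideanSpace ℝ (Fin 3)) : EuclideanSpace ℝ (Fin 3) :=
  ‖q - p‖⁻¹ • (q - p)

/-- The symplectic form `ω(a, b) = a₁ b₂ - a₂ b₁` on `ℂ²`. -/
def omega (a b : EuclideanSpace ℂ (Fin 2)) : ℂ := a 0 * b 1 - a 1 * b 0

/-- `ψ` assigns to every ordered pair `(i, j)` of adjacent vertices (a dart of `G`) a unit vector
`ψ_ij` of `ℂ²` with `(u_ij · σ) ψ_ij = ψ_ij`, where `u_ij` is the direction from `x_i` to `x_j`. -/
def IsSpinorChoice {n : ℕ} (G : SimpleGraph (Fin n)) (x : Fin n → EuclideanSpace ℝ (Fin 3))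
    (ψ : G.Dart → EuclideanSpace ℂ (Fin 2)) : Prop :=
  ∀ d : G.Dart, ‖ψ d‖ = 1 ∧
    (pauliDot (dir (x d.fst) (x d.snd))).mulVec (ψ d).ofLp = (ψ d).ofLp

/-- `Δ` contains exactly one of `(i, j)`, `(j, i)` for each edge. -/
def IsOrientation {n : ℕ} (G : SimpleGraph (Fin n)) (Δ : Finset G.Dart) : Prop :=
  ∀ d : G.Dart, d ∈ Δ ↔ d.symm ∉ Δ

open Classical in
/-- The numerator of the amplitude: the sum, over the permutations `σ` of the darts that preserve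
the first coordinate, of `∏_{(i,j) ∈ Δ} ω(ψ_{σ(i,j)}, ψ_{σ(j,i)})`. -/
noncomputable def numerator {n : ℕ} (G : SimpleGraph (Fin n))
    (ψ : G.Dart → EuclideanSpace ℂ (Fin 2)) (Δ : Finset G.Dart) : ℂ :=
  ∑ σ ∈ Finset.univ.filter (fun σ : Equiv.Perm G.Dart => ∀ d, (σ d).fst = d.fst),
    ∏ d ∈ Δ, omega (ψ (σ d)) (ψ (σ d.symm))

/-- The denominator of the amplitude: `∏_{(i,j) ∈ Δ} ω(ψ_ij, ψ_ji)`. -/
noncomputable def denominator {n : ℕ} (G : SimpleGraph (Fin n))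
    (ψ : G.Dart → EuclideanSpace ℂ (Fin 2)) (Δ : Finset G.Dart) : ℂ :=
  ∏ d ∈ Δ, omega (ψ d) (ψ d.symm)

/-- The `G`-amplitude computed from the spinors `ψ` and the orientation `Δ`. -/
noncomputable def amplitude {n : ℕ} (G : SimpleGraph (Fin n))
    (ψ : G.Dart → EuclideanSpace ℂ (Fin 2)) (Δ : Finset G.Dart) : ℂ :=
  numerator G ψ Δ / denominator G ψ Δ

/-- The amplitude of `G` has no zero on the configuration space. -/
def ZeroFree {n : ℕ} (G : SimpleGraph (Fin n)) : Prop :=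
  ∀ x : Fin n → EuclideanSpace ℝ (Fin 3), (∀ i j, G.Adj i j → x i ≠ x j) →
    ∀ (ψ : G.Dart → EuclideanSpace ℂ (Fin 2)) (Δ : Finset G.Dart),
      IsSpinorChoice G x ψ → IsOrientation G Δ → amplitude G ψ Δ ≠ 0

end Pool.Agent.Lib.MP_b525e0_co.SC
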