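import Pool.Agent.Lib.MP_b525e0_co.SC.Spin

namespace Pool.Agent.Lib.MP_b525e0_co.SC

open Complex ComplexConjugate

variable {n : ℕ} {G : SimpleGraph (Fin n)}

theorem red_fibre {α ι : Type} [Fintype α] [DecidableEq α] [Fintype ι] [DecidableEq ι] (f : α → ι)
    [DecidablePred fun σ : Equiv.Perm α => ∀ d, f (σ d) = f d] (F : α → α → ℂ) :
    ∑ σ ∈ Finset.univ.filter (fun σ : Equiv.Perm α => ∀ d, f (σ d) = f d), ∏ d, F d (σ d) =
      ∏ v : ι, ∑ σ : Equiv.Perm {d : α // f d = v}, ∏ d : {d : α // f d = v}, F d (σ d) := by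
  rw [Finset.prod_univ_sum, Fintype.piFinset_univ]
  symm
  refine Finset.sum_bij (fun g _ => DomMulAct.stabilizerEquiv_invFun_aux g) ?_ ?_ ?_ ?_
  · intro g _
    exact Finset.mem_filter.2 ⟨Finset.mem_univ _, DomMulAct.comp_stabilizerEquiv_invFun g⟩
  · intro g _ g' _ h
    funext i
    refine Equiv.ext fun a => Subtype.ext ?_
    rw [← DomMulAct.stabilizerEquiv_invFun_eq g a.2, ← DomMulAct.stabilizerEquiv_invFun_eq g' a.2]
    exact DFunLike.congr_fun h a.1
  · intro σ hσ
    have h := (Finset.mem_filter.1 hσ).2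
    exact ⟨fun i => σ.subtypePerm fun a => by rw [h a], Finset.mem_univ _, Equiv.ext fun a => rfl⟩
  · intro g _
    rw [← Fintype.prod_fiberwise f]
    refine Finset.prod_congr rfl fun i _ => Finset.prod_congr rfl fun a _ => ?_
    rw [← DomMulAct.stabilizerEquiv_invFun_eq g a.2]
    rfl

open Classical in
theorem sum_fibre (F : G.Dart → G.Dart → ℂ) :
    ∑ σ ∈ Finset.univ.filter (fun σ : Equiv.Perm G.Dart => ∀ d, (σ d).fst = d.fst),
        ∏ d, F d (σ d) =
      ∏ v : Fin n, ∑ σ : Equiv.Perm {d : G.Dart // d.fst = v},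
        ∏ d : {d : G.Dart // d.fst = v}, F d (σ d) := by
  exact red_fibre (fun d : G.Dart => d.fst) F

theorem sum_signs {D E : Type} [Fintype E] [DecidableEq E] (Δ : Finset D) (k : D → E)
    (hk : Set.InjOn k Δ) (g : D → Bool → ℂ) :
    ∑ η : E → Bool, ∏ d ∈ Δ, g d (η (k d)) =
      2 ^ Fintype.card E * ∏ d ∈ Δ, ((g d true + g d false) / 2) := by
  have h1 : ∀ η : E → Bool, ∏ d ∈ Δ, g d (η (k d)) =
      ∏ e : E, ∏ d ∈ Δ.filter (fun d => k d = e), g d (η e) := fun η => by
    rw [← Finset.prod_fiberwise Δ k]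
    refine Finset.prod_congr rfl fun e _ => Finset.prod_congr rfl fun d hd => ?_
    rw [(Finset.mem_filter.1 hd).2]
  have h2 : ∀ e : E, ∑ b : Bool, ∏ d ∈ Δ.filter (fun d => k d = e), g d b =
      2 * ∏ d ∈ Δ.filter (fun d => k d = e), ((g d true + g d false) / 2) := fun e => by
    rcases (Δ.filter (fun d => k d = e)).eq_empty_or_nonempty with h | ⟨d, hd⟩
    · rw [h]; simp
    · have : Δ.filter (fun d => k d = e) = {d} := by
        refine Finset.eq_singleton_iff_unique_mem.2 ⟨hd, fun x hx => ?_⟩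
        have a := Finset.mem_filter.1 hd
        have b := Finset.mem_filter.1 hx
        exact hk b.1 a.1 (b.2.trans a.2.symm)
      rw [this]
      simp only [Finset.prod_singleton, Fintype.sum_bool]
      ring
  rw [Finset.sum_congr rfl fun η _ => h1 η, ← Fintype.piFinset_univ,
    ← Finset.prod_univ_sum (fun _ : E => (Finset.univ : Finset Bool))
      (fun e b => ∏ d ∈ Δ.filter (fun d => k d = e), g d b),
    Finset.prod_congr rfl fun e _ => h2 e, Finset.prod_mul_distrib, Finset.prod_const,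
    Finset.card_univ, Finset.prod_fiberwise]

theorem exists_orientation (G : SimpleGraph (Fin n)) : ∃ Δ, IsOrientation G Δ := by
  classical
  refine ⟨Finset.univ.filter fun d : G.Dart => d.fst < d.snd, fun d => ?_⟩
  simp only [Finset.mem_filter, Finset.mem_univ, true_and]
  change d.fst < d.snd ↔ ¬ d.snd < d.fst
  exact ⟨fun h => lt_asymm h, fun h => lt_of_le_of_ne (not_lt.1 h) d.fst_ne_snd⟩

theorem red_orient [Fintype G.Dart] {Δ : Finset G.Dart}
    (hΔ : IsOrientation G Δ) (f : G.Dart → ℂ) :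
    ∏ d ∈ Δ, (f d * f d.symm) = ∏ d, f d := by
  classical
  rw [Finset.prod_mul_distrib, ← Finset.prod_mul_prod_compl Δ f]
  congr 1
  refine Finset.prod_bij' (fun d _ => d.symm) (fun d _ => d.symm) ?_ ?_ ?_ ?_ ?_
  · intro d hd
    rw [Finset.mem_compl]; exact (hΔ d).1 hd
  · intro d hd
    rw [Finset.mem_compl] at hd
    rw [hΔ]; simpa using hd
  · intro d _; simp
  · intro d _; simp
  · intro d _; rfl

theorem amp_eq {ψ : G.Dart → EuclideanSpace ℂ (Fin 2)} {Δ : Finset G.Dart}
    (hΔ : IsOrientation G Δ) (hu : ∀ d, ip (toS (ψ d)) (toS (ψ d)) = 1)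
    (ho : ∀ d, ip (toS (ψ d)) (toS (ψ d.symm)) = 0) (z : G.Dart → ℂ) :
    Phi Finset.univ Finset.univ (fun d => toS (ψ d)) z =
      2 ^ Fintype.card (Sym2 (Fin n)) * amplitude G ψ Δ := by
  classical
  have hk : Set.InjOn SimpleGraph.Dart.edge (Δ : Set G.Dart) := fun d hd d' hd' h => by
    rcases (SimpleGraph.dart_edge_eq_iff d d').1 h with h | h
    · exact h
    · exact absurd (h ▸ hd : d'.symm ∈ Δ) ((hΔ d').1 hd')
  unfold Phi loc amplitude numerator denominator
  rw [Finset.sum_congr rfl fun η _ => (sum_fibre fun d e =>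
    MM (toS (ψ d)) (zz (fun d => toS (ψ d)) Finset.univ η z d) (toS (ψ e))).symm,
    Finset.sum_comm, Finset.sum_div, Finset.mul_sum]
  refine Finset.sum_congr rfl fun σ _ => ?_
  let g : G.Dart → Bool → ℂ := fun d b =>
    MM (toS (ψ d)) ((if b then 1 else -1) * ww (fun d => toS (ψ d)) d) (toS (ψ (σ d))) *
      MM (toS (ψ d.symm)) ((if b then 1 else -1) * ww (fun d => toS (ψ d)) d.symm)
        (toS (ψ (σ d.symm)))
  have h1 : ∀ η : Sym2 (Fin n) → Bool,
      ∏ d, MM (toS (ψ d)) (zz (fun d => toS (ψ d)) Finset.univ η z d) (toS (ψ (σ d))) =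
        ∏ d ∈ Δ, g d (η d.edge) := fun η => by
    rw [← red_orient hΔ]
    refine Finset.prod_congr rfl fun d _ => ?_
    simp only [zz, Finset.mem_univ, if_true, SimpleGraph.Dart.edge_symm, g]
  rw [Finset.sum_congr rfl fun η _ => h1 η, sum_signs Δ SimpleGraph.Dart.edge hk g,
    ← Finset.prod_div_distrib]
  congr 1
  refine Finset.prod_congr rfl fun d _ => ?_
  have := edge_identity (hu d) (hu d.symm) (ho d) (toS (ψ (σ d))) (toS (ψ (σ d.symm)))
  simp only [g, ww, SimpleGraph.Dart.symm_symm, if_true, one_mul, Bool.false_eq_true, if_false,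
    neg_mul]
  rw [this, mul_div_cancel_left₀ _ two_ne_zero]
  rfl

end Pool.Agent.Lib.MP_b525e0_co.SC
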