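import Pool.Agent.Lib.MP_b525e0_co.SC.Defs

namespace Pool.Agent.Lib.MP_b525e0_co.SC

open Complex ComplexConjugate

variable {n : ℕ} {G : SimpleGraph (Fin n)}

lemma step_sum {κ : Type} (s : Finset κ) (F : κ → ℂ → ℂ)
    (h : ∀ k, ∃ α β : ℂ, ∀ x, F k x = α + β * x) :
    ∃ α β : ℂ, ∀ x, ∑ k ∈ s, F k x = α + β * x := by
  choose α β h using h
  refine ⟨∑ k ∈ s, α k, ∑ k ∈ s, β k, fun x => ?_⟩
  rw [Finset.sum_mul, ← Finset.sum_add_distrib]
  exact Finset.sum_congr rfl fun k _ => h k x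

lemma step_prod {ι : Type} (s : Finset ι) (F : ι → ℂ → ℂ) (i0 : ι)
    (h0 : ∃ α β : ℂ, ∀ x, F i0 x = α + β * x) (h : ∀ i, i ≠ i0 → ∀ x, F i x = F i 0) :
    ∃ α β : ℂ, ∀ x, ∏ i ∈ s, F i x = α + β * x := by
  classical
  by_cases hi : i0 ∈ s
  · obtain ⟨α, β, h0⟩ := h0
    refine ⟨α * ∏ i ∈ s.erase i0, F i 0, β * ∏ i ∈ s.erase i0, F i 0, fun x => ?_⟩
    rw [← Finset.mul_prod_erase s (fun i => F i x) hi, h0 x,
      Finset.prod_congr rfl fun i hi' => h i (Finset.ne_of_mem_erase hi') x]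
    ring
  · refine ⟨∏ i ∈ s, F i 0, 0, fun x => ?_⟩
    rw [zero_mul, add_zero]
    exact Finset.prod_congr rfl fun i hi' => h i (fun e => hi (e ▸ hi')) x

theorem loc_congr {v : Fin n} {ψ ψ' : G.Dart → Sp} {z z' : G.Dart → ℂ}
    (h1 : ∀ d : G.Dart, d.fst = v → ψ d = ψ' d) (h2 : ∀ d : G.Dart, d.fst = v → z d = z' d) :
    loc v ψ z = loc v ψ' z' := by
  unfold loc
  refine Finset.sum_congr rfl fun σ _ => Finset.prod_congr rfl fun d _ => ?_
  rw [h1 d d.2, h2 d d.2, h1 (σ d) (σ d).2]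

theorem loc_affine [DecidableEq G.Dart] (v : Fin n) (ψ : G.Dart → Sp) (z : G.Dart → ℂ)
    (d : G.Dart) : ∃ α β : ℂ, ∀ x, loc v ψ (Function.update z d x) = α + β * x := by
  by_cases hd : d.fst = v
  · unfold loc
    refine step_sum _ (fun (σ : Equiv.Perm {d : G.Dart // d.fst = v}) x => _) fun σ => ?_
    refine step_prod _ (fun (e : {d : G.Dart // d.fst = v}) x =>
      MM (ψ e) (Function.update z d x e) (ψ (σ e))) ⟨d, hd⟩ ?_ ?_
    · refine ⟨ip (ψ d) (ψ (σ ⟨d, hd⟩)), om (ψ d) (ψ (σ ⟨d, hd⟩)), fun x => ?_⟩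
      show MM (ψ d) (Function.update z d x d) (ψ (σ ⟨d, hd⟩)) = _
      rw [Function.update_self, MM, mul_comm]
    · intro e he x
      have hne : (e : G.Dart) ≠ d := fun h => he (Subtype.ext h)
      show MM (ψ e) (Function.update z d x e) (ψ (σ e)) =
        MM (ψ e) (Function.update z d 0 e) (ψ (σ e))
      rw [Function.update_of_ne hne, Function.update_of_ne hne]
  · refine ⟨loc v ψ z, 0, fun x => ?_⟩
    rw [zero_mul, add_zero]
    refine loc_congr (fun _ _ => rfl) fun e he => ?_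
    have hne : e ≠ d := fun h => hd (by rw [← h, he])
    exact Function.update_of_ne hne _ _

theorem Phi_congr {U : Finset (Fin n)} {Γ Γ' : Finset (Sym2 (Fin n))} {ψ ψ' : G.Dart → Sp}
    {z z' : G.Dart → ℂ} (h0 : ∀ d : G.Dart, d.fst ∈ U → (d.edge ∈ Γ ↔ d.edge ∈ Γ'))
    (h1 : ∀ d : G.Dart, d.fst ∈ U → ψ d = ψ' d)
    (h2 : ∀ d : G.Dart, d.fst ∈ U → d.edge ∈ Γ → ψ d.symm = ψ' d.symm)
    (h3 : ∀ d : G.Dart, d.fst ∈ U → d.edge ∉ Γ → z d = z' d) :
    Phi U Γ ψ z = Phi U Γ' ψ' z' := by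
  unfold Phi
  refine Finset.sum_congr rfl fun η _ => Finset.prod_congr rfl fun v hv => ?_
  refine loc_congr (fun d hd => h1 d (hd ▸ hv)) fun d hd => ?_
  have hU : d.fst ∈ U := hd ▸ hv
  unfold zz
  by_cases hΓ : d.edge ∈ Γ
  · rw [if_pos hΓ, if_pos ((h0 d hU).1 hΓ), ww, ww, h1 d hU, h2 d hU hΓ]
  · rw [if_neg hΓ, if_neg (fun h => hΓ ((h0 d hU).2 h)), h3 d hU hΓ]

theorem Phi_affine [DecidableEq G.Dart] (U : Finset (Fin n)) (Γ : Finset (Sym2 (Fin n)))
    (ψ : G.Dart → Sp) (z : G.Dart → ℂ) (d : G.Dart) :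
    ∃ α β : ℂ, ∀ x, Phi U Γ ψ (Function.update z d x) = α + β * x := by
  unfold Phi
  refine step_sum _ (fun (η : Sym2 (Fin n) → Bool) x => _) fun η => ?_
  refine step_prod _ (fun v x => loc v ψ (zz ψ Γ η (Function.update z d x))) d.fst ?_ ?_
  · by_cases hΓ : d.edge ∈ Γ
    · refine ⟨loc d.fst ψ (zz ψ Γ η z), 0, fun x => ?_⟩
      rw [zero_mul, add_zero]
      refine loc_congr (fun _ _ => rfl) fun e _ => ?_
      unfold zz
      by_cases he : e = d
      · rw [he, if_pos hΓ, if_pos hΓ]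
      · rw [Function.update_of_ne he]
    · obtain ⟨α, β, h⟩ := loc_affine d.fst ψ (zz ψ Γ η z) d
      refine ⟨α, β, fun x => ?_⟩
      rw [← h x]
      refine loc_congr (fun _ _ => rfl) fun e _ => ?_
      by_cases he : e = d
      · rw [he, Function.update_self]
        unfold zz
        rw [if_neg hΓ, Function.update_self]
      · rw [Function.update_of_ne he]
        unfold zz
        rw [Function.update_of_ne he]
  · intro v hv x
    refine loc_congr (fun _ _ => rfl) fun e he => ?_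
    have hne : e ≠ d := fun h => hv (by rw [← he, h])
    unfold zz
    rw [Function.update_of_ne hne, Function.update_of_ne hne]

lemma step_zz [DecidableEq G.Dart] {Γ : Finset (Sym2 (Fin n))} (ψ : G.Dart → Sp)
    (z : G.Dart → ℂ) {d : G.Dart} (hd : d.edge ∉ Γ) (η η' : Sym2 (Fin n) → Bool)
    (h : ∀ e, e ≠ d.edge → η' e = η e) (s : ℂ) (hs : (if η' d.edge then (1 : ℂ) else -1) = s) :
    zz ψ (insert d.edge Γ) η' z =
      zz ψ Γ η (Function.update (Function.update z d (s * ww ψ d)) d.symm (s * ww ψ d.symm)) := by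
  funext e
  unfold zz
  by_cases he : e.edge = d.edge
  · have h1 : e.edge ∈ insert d.edge Γ := by rw [he]; exact Finset.mem_insert_self _ _
    have h2 : e.edge ∉ Γ := by rw [he]; exact hd
    rw [if_pos h1, if_neg h2, he, hs]
    rcases (SimpleGraph.dart_edge_eq_iff e d).1 he with h3 | h3
    · rw [h3, Function.update_of_ne (SimpleGraph.Dart.symm_ne d).symm, Function.update_self]
    · rw [h3, Function.update_self]
  · have h3 : e ≠ d := fun h4 => he (by rw [h4])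
    have h4 : e ≠ d.symm := fun h4 => he (by rw [h4, SimpleGraph.Dart.edge_symm])
    rw [h _ he, Function.update_of_ne h4, Function.update_of_ne h3]
    by_cases hΓ : e.edge ∈ Γ
    · rw [if_pos hΓ, if_pos (Finset.mem_insert_of_mem hΓ)]
    · rw [if_neg hΓ, if_neg (fun h5 => (Finset.mem_insert.1 h5).elim he hΓ)]

theorem Phi_insert_edge [DecidableEq G.Dart] (U : Finset (Fin n)) {Γ : Finset (Sym2 (Fin n))}
    (ψ : G.Dart → Sp) (z : G.Dart → ℂ) {d : G.Dart} (hd : d.edge ∉ Γ) :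
    2 * Phi U (insert d.edge Γ) ψ z =
      Phi U Γ ψ (Function.update (Function.update z d (ww ψ d)) d.symm (ww ψ d.symm)) +
        Phi U Γ ψ (Function.update (Function.update z d (-ww ψ d)) d.symm (-ww ψ d.symm)) := by
  let fl : (Sym2 (Fin n) → Bool) → (Sym2 (Fin n) → Bool) :=
    fun η => Function.update η d.edge (!η d.edge)
  have hfl0 : ∀ η, fl η d.edge = !η d.edge := fun η => Function.update_self _ _ _
  have hfl1 : ∀ η e, e ≠ d.edge → fl η e = η e := fun η e he => Function.update_of_ne he _ _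
  have hinv : Function.Involutive fl := by
    intro η
    funext e
    by_cases he : e = d.edge
    · rw [he, hfl0, hfl0, Bool.not_not]
    · rw [hfl1 _ _ he, hfl1 _ _ he]
  have hsum := Equiv.sum_comp hinv.toPerm
    (fun η => ∏ v ∈ U, loc v ψ (zz ψ (insert d.edge Γ) η z))
  unfold Phi
  rw [two_mul]
  nth_rewrite 2 [← hsum]
  rw [← Finset.sum_add_distrib, ← Finset.sum_add_distrib]
  refine Finset.sum_congr rfl fun η _ => ?_
  show (∏ v ∈ U, loc v ψ (zz ψ (insert d.edge Γ) η z)) +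
    (∏ v ∈ U, loc v ψ (zz ψ (insert d.edge Γ) (fl η) z)) = _
  cases hη : η d.edge with
  | true =>
    rw [step_zz ψ z hd η η (fun _ _ => rfl) 1 (by rw [hη]; rfl),
      step_zz ψ z hd η (fl η) (hfl1 η) (-1) (by rw [hfl0, hη]; rfl)]
    simp only [one_mul, neg_mul]
  | false =>
    rw [step_zz ψ z hd η η (fun _ _ => rfl) (-1) (by rw [hη]; rfl),
      step_zz ψ z hd η (fl η) (hfl1 η) 1 (by rw [hfl0, hη]; rfl), add_comm]
    simp only [one_mul, neg_mul]

theorem Phi_insert_vertex {U : Finset (Fin n)} {Γ : Finset (Sym2 (Fin n))} (ψ : G.Dart → Sp)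
    (z : G.Dart → ℂ) {u : Fin n} (hu : u ∉ U) (hΓ : ∀ d : G.Dart, d.fst = u → d.edge ∉ Γ) :
    Phi (insert u U) Γ ψ z = loc u ψ z * Phi U Γ ψ z := by
  unfold Phi
  rw [Finset.mul_sum]
  refine Finset.sum_congr rfl fun η _ => ?_
  rw [Finset.prod_insert hu]
  congr 1
  refine loc_congr (fun _ _ => rfl) fun e he => ?_
  unfold zz
  rw [if_neg (hΓ e he)]

end Pool.Agent.Lib.MP_b525e0_co.SC
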