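import Pool.Agent.Lib.MP_b525e0_co.SC.Defs

namespace Pool.Agent.Lib.MP_b525e0_co.SC

open Complex ComplexConjugate

variable {n : ℕ} {G : SimpleGraph (Fin n)}

/-- The special unitary map with first column `b`. -/
noncomputable def TransT (b x : Sp) : Sp :=
  (x.1 * b.1 - x.2 * conj b.2, x.1 * b.2 + x.2 * conj b.1)

theorem Trans_ip {b : Sp} (hb : ip b b = 1) (x y : Sp) :
    ip (TransT b x) (TransT b y) = ip x y := by
  simp only [ip, TransT, map_sub, map_add, map_mul, conj_conj] at hb ⊢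
  linear_combination (conj x.1 * y.1 + conj x.2 * y.2) * hb

theorem Trans_MM {b : Sp} (hb : ip b b = 1) (x : Sp) (z : ℂ) (y : Sp) :
    MM (TransT b x) z (TransT b y) = MM x z y := by
  have h : om (TransT b x) (TransT b y) = om x y := by
    simp only [ip, om, TransT] at hb ⊢
    linear_combination (x.1 * y.2 - x.2 * y.1) * hb
  rw [MM, MM, Trans_ip hb, h]

theorem Trans_row {μ : ℂ} (hμ : conj μ * μ = 1) (a : Sp) (z : ℂ) (y : Sp) :
    MM (μ * a.1, μ * a.2) z y = conj μ * MM a (μ ^ 2 * z) y := by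
  simp only [MM, ip, om, map_mul]
  linear_combination (-(μ * z * (a.1 * y.2 - a.2 * y.1))) * hμ

theorem Trans_col (μ : ℂ) (a x : Sp) (z : ℂ) :
    MM x z (μ * a.1, μ * a.2) = μ * MM x z a := by
  simp only [MM, ip, om]
  ring

theorem Trans_data {s : ℝ} (hs : 2 * s ^ 2 = 1) {t : ℝ} {a : Sp} (ha : ip a a = 1)
    {z1 : ℂ} (hz : ‖z1‖ = t) :
    ∃ (μ : ℂ) (b : Sp), conj μ * μ = 1 ∧ μ ^ 2 * z1 = I * t ∧ ip b b = 1 ∧
      a = (μ * (TransT b ((s : ℂ), (s : ℂ))).1, μ * (TransT b ((s : ℂ), (s : ℂ))).2) := by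
  have hs' : 2 * (s : ℂ) ^ 2 = 1 := by exact_mod_cast hs
  obtain ⟨μ, h1, h2⟩ : ∃ μ : ℂ, conj μ * μ = 1 ∧ μ ^ 2 * z1 = I * t := by
    by_cases h0 : z1 = 0
    · refine ⟨1, by simp, ?_⟩
      rw [← hz, h0]
      simp
    · obtain ⟨μ, hμ⟩ := IsAlgClosed.exists_pow_nat_eq (I * t / z1) (n := 2) two_pos
      refine ⟨μ, ?_, by rw [hμ, div_mul_cancel₀ _ h0]⟩
      have hn : ‖z1‖ ≠ 0 := norm_ne_zero_iff.2 h0
      have : ‖μ‖ ^ 2 = 1 := by
        rw [← norm_pow, hμ, norm_div, norm_mul, norm_I, one_mul, ← hz, norm_real, norm_norm,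
          div_self hn]
      rw [conj_mul']
      exact_mod_cast this
  refine ⟨μ, (s * (conj μ * a.1) + s * (μ * conj a.2), s * (conj μ * a.2) - s * (μ * conj a.1)),
    h1, h2, ?_, ?_⟩
  · simp only [ip, map_add, map_sub, map_mul, conj_conj, conj_ofReal] at ha ⊢
    linear_combination (2 * (s : ℂ) ^ 2 * (conj a.1 * a.1 + conj a.2 * a.2)) * h1 +
      2 * (s : ℂ) ^ 2 * ha + hs'
  · ext
    · simp only [TransT, map_add, map_sub, map_mul, conj_conj, conj_ofReal]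
      linear_combination (-(2 * (s : ℂ) ^ 2 * a.1)) * h1 - a.1 * hs'
    · simp only [TransT, map_add, map_sub, map_mul, conj_conj, conj_ofReal]
      linear_combination (-(2 * (s : ℂ) ^ 2 * a.2)) * h1 - a.2 * hs'

theorem P2_transport {s : ℝ} (hs : 2 * s ^ 2 = 1) {t : ℝ} {b2 : Sp} {z2 : ℂ}
    (hb : ip b2 b2 = 1) (h : P2 ((s : ℂ), (s : ℂ)) (I * t) b2 z2 = 0) {a : Sp} (ha : ip a a = 1)
    {z1 : ℂ} (hz : ‖z1‖ = t) : ∃ a2 : Sp, ip a2 a2 = 1 ∧ P2 a z1 a2 z2 = 0 := by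
  obtain ⟨μ, b, h1, h2, h3, h4⟩ := Trans_data hs ha hz
  refine ⟨TransT b b2, by rw [Trans_ip h3, hb], ?_⟩
  rw [h4]
  simp only [P2, Trans_row h1, Trans_col, Trans_MM h3, h2] at h ⊢
  linear_combination (conj μ * μ) * h

theorem P3_transport {s : ℝ} (hs : 2 * s ^ 2 = 1) {t : ℝ} {b2 b3 : Sp} {z2 z3 : ℂ}
    (hb2 : ip b2 b2 = 1) (hb3 : ip b3 b3 = 1)
    (h : P3 ((s : ℂ), (s : ℂ)) (I * t) b2 z2 b3 z3 = 0) {a : Sp} (ha : ip a a = 1)
    {z1 : ℂ} (hz : ‖z1‖ = t) :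
    ∃ a2 a3 : Sp, ip a2 a2 = 1 ∧ ip a3 a3 = 1 ∧ P3 a z1 a2 z2 a3 z3 = 0 := by
  obtain ⟨μ, b, h1, h2, h3, h4⟩ := Trans_data hs ha hz
  refine ⟨TransT b b2, TransT b b3, by rw [Trans_ip h3, hb2], by rw [Trans_ip h3, hb3], ?_⟩
  rw [h4]
  simp only [P3, Trans_row h1, Trans_col, Trans_MM h3, h2] at h ⊢
  linear_combination (conj μ * μ) * h

end Pool.Agent.Lib.MP_b525e0_co.SC
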